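import Mathlib

/-! # Bushy trees: big and small sets of nodes

Nodes are finite sequences of natural numbers; at level `l` only the children `t < M l` count. -/

namespace Pool.Agent.H99.OF

open Filter

/-- `F` is `g`-big above `τ`: `τ ∈ F`, or more than `g |τ|` of the children `t < M |τ|` of `τ`
are `g`-big nodes for `F`. -/
inductive Big (M g : ℕ → ℕ) (F : List ℕ → Prop) : List ℕ → Prop
  | leaf (τ : List ℕ) : F τ → Big M g F τ
  | node (τ : List ℕ) (D : Finset ℕ) : (∀ t ∈ D, t < M τ.length) → g τ.length < D.card →
      (∀ t ∈ D, Big M g F (τ ++ [t])) → Big M g F τ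

/-- The entries of `ρ` are below the branching numbers. -/
def Valid (M : ℕ → ℕ) (ρ : List ℕ) : Prop := ∀ j t, ρ[j]? = some t → t < M j

variable {M g h g' : ℕ → ℕ} {F F' A : List ℕ → Prop} {τ : List ℕ}

theorem Valid.nil : Valid M [] := by
  intro j t h; simp at h

theorem Valid.snoc (hτ : Valid M τ) {t : ℕ} (ht : t < M τ.length) : Valid M (τ ++ [t]) := by
  intro j s hs
  rcases lt_trichotomy j τ.length with hj | hj | hj
  · rw [List.getElem?_append_left hj] at hs
    exact hτ j s hs
  · subst hj
    simp at hs
    omega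
  · rw [List.getElem?_eq_none (by simp; omega)] at hs
    simp at hs

theorem Big.mono (hF : ∀ ρ, F ρ → F' ρ) (h : Big M g F τ) :
    (∀ l, τ.length ≤ l → g' l ≤ g l) → Big M g' F' τ := by
  induction h with
  | leaf τ hτ => intro _; exact .leaf τ (hF τ hτ)
  | node τ D hD hc _ ih =>
    intro hg
    refine .node τ D hD (lt_of_le_of_lt (hg _ le_rfl) hc) (fun t ht => ih t ht ?_)
    intro l hl
    apply hg
    simp at hl
    omega

/-- The leaves of a witness extend `τ` and are valid if `τ` is. -/
theorem Big.restrict (h : Big M g F τ) :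
    Big M g (fun α => F α ∧ τ <+: α ∧ (Valid M τ → Valid M α)) τ := by
  induction h with
  | leaf τ hτ => exact .leaf τ ⟨hτ, List.prefix_rfl, id⟩
  | node τ D hD hc _ ih =>
    refine .node τ D hD hc (fun t ht => (ih t ht).mono ?_ (fun _ _ => le_rfl))
    rintro ρ ⟨h1, h2, h3⟩
    refine ⟨h1, (List.prefix_append τ [t]).trans h2, fun hv => h3 (hv.snoc (hD t ht))⟩

theorem Big.trans (h : Big M g A τ) : (∀ α, τ <+: α → A α → Big M g F α) → Big M g F τ := by
  induction h with
  | leaf τ hτ => intro H; exact H τ List.prefix_rfl hτ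
  | node τ D hD hc _ ih =>
    intro H
    refine .node τ D hD hc (fun t ht => ih t ht (fun α hα hA => H α ?_ hA))
    exact (List.prefix_append τ [t]).trans hα

/-- A big set contains a node above which a small set is still small. -/
theorem Big.exists_small (h : Big M g A τ) (hs : ¬ Big M g F τ) :
    ∃ α, A α ∧ τ <+: α ∧ (Valid M τ → Valid M α) ∧ ¬ Big M g F α := by
  by_contra hcon
  push Not at hcon
  exact hs (h.restrict.trans (fun α hα hA => hcon α hA.1 hA.2.1 hA.2.2))

theorem Big.or (H : Big M (fun l => g l + h l) (fun ρ => F ρ ∨ F' ρ) τ) :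
    Big M g F τ ∨ Big M h F' τ := by
  classical
  generalize hG : (fun l => g l + h l) = G at H
  induction H with
  | leaf τ hτ =>
    rcases hτ with h1 | h1
    · exact Or.inl (.leaf τ h1)
    · exact Or.inr (.leaf τ h1)
  | node τ D hD hc _ ih =>
    subst hG
    by_cases h1 : g τ.length < (D.filter (fun t => Big M g F (τ ++ [t]))).card
    · left
      refine .node τ _ (fun t ht => hD t (Finset.mem_filter.1 ht).1) h1 (fun t ht => ?_)
      exact (Finset.mem_filter.1 ht).2
    by_cases h2 : h τ.length < (D.filter (fun t => Big M h F' (τ ++ [t]))).card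
    · right
      refine .node τ _ (fun t ht => hD t (Finset.mem_filter.1 ht).1) h2 (fun t ht => ?_)
      exact (Finset.mem_filter.1 ht).2
    exfalso
    have h3 : D ⊆ D.filter (fun t => Big M g F (τ ++ [t])) ∪
        D.filter (fun t => Big M h F' (τ ++ [t])) := by
      intro t ht
      rcases ih t ht with h4 | h4
      · exact Finset.mem_union_left _ (Finset.mem_filter.2 ⟨ht, h4⟩)
      · exact Finset.mem_union_right _ (Finset.mem_filter.2 ⟨ht, h4⟩)
    have h4 := (Finset.card_le_card h3).trans (Finset.card_union_le _ _)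
    simp only at hc
    omega

theorem not_big_false (hF : ∀ ρ, ¬ F ρ) : ¬ Big M g F τ := by
  intro h
  induction h with
  | leaf τ hτ => exact hF τ hτ
  | node τ D hD hc _ ih =>
    obtain ⟨t, ht⟩ := Finset.card_pos.1 (lt_of_le_of_lt (Nat.zero_le _) hc)
    exact ih t ht

theorem Big.pigeon {Q : ℕ → List ℕ → Prop} (c : ℕ)
    (H : Big M (fun l => c * g l) (fun ρ => ∃ v, v < c ∧ Q v ρ) τ) :
    ∃ v, v < c ∧ Big M g (Q v) τ := by
  induction c with
  | zero => exact absurd H (not_big_false (by simp))
  | succ c ih =>
    have h1 : Big M (fun l => c * g l + g l) (fun ρ => (∃ v, v < c ∧ Q v ρ) ∨ Q c ρ) τ := by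
      refine H.mono ?_ (fun l _ => by rw [Nat.succ_mul])
      rintro ρ ⟨v, hv, hQ⟩
      rcases Nat.lt_succ_iff_lt_or_eq.1 hv with h1 | rfl
      · exact Or.inl ⟨v, h1, hQ⟩
      · exact Or.inr hQ
    rcases h1.or (g := fun l => c * g l) (h := g) with h2 | h2
    · obtain ⟨v, hv, hQ⟩ := ih h2
      exact ⟨v, by omega, hQ⟩
    · exact ⟨c, by omega, h2⟩

/-- The whole level `i` is big. -/
theorem big_level (i : ℕ) (hi : τ.length ≤ i) (hg : ∀ l, τ.length ≤ l → g l < M l) :
    Big M g (fun α => α.length = i) τ := by
  obtain ⟨d, hd⟩ := Nat.exists_eq_add_of_le hi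
  induction d generalizing τ with
  | zero => exact .leaf τ (by omega)
  | succ d ih =>
    refine .node τ (Finset.range (M τ.length)) (fun t ht => Finset.mem_range.1 ht)
      (by simpa using hg _ le_rfl) (fun t _ => ih ?_ ?_ ?_)
    · simp; omega
    · intro l hl; apply hg; simp at hl; omega
    · simp; omega

/-- A limit of small sets: if the sets `D i` of nodes of length `i` are co-small above `σ`, the
nodes above which this fails for almost all `i` form a small set. -/
theorem big_limit {D : ℕ → List ℕ → Prop} (hD : ∀ i α, D i α → α.length = i)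
    (hgh : ∀ l, τ.length ≤ l → M l ≤ g l + h l + 1)
    (H : Big M h (fun ρ => ∀ᶠ i in atTop, ¬ Big M g (D i) ρ) τ) :
    ∀ᶠ i in atTop, ¬ Big M g (D i) τ := by
  classical
  induction H with
  | leaf τ hτ => exact hτ
  | node τ E hE hc _ ih =>
    have h1 : ∀ t ∈ E, ∀ᶠ i in atTop, ¬ Big M g (D i) (τ ++ [t]) := by
      intro t ht
      apply ih t ht
      intro l hl
      apply hgh
      simp at hl
      omega
    have h2 : ∀ᶠ i in atTop, ∀ t ∈ E, ¬ Big M g (D i) (τ ++ [t]) :=
      (Filter.eventually_all_finset E).2 h1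
    filter_upwards [h2, eventually_gt_atTop τ.length] with i hi hlt hbig
    cases hbig with
    | leaf _ h3 =>
      have := hD i τ h3
      omega
    | node _ E' hE' hc' h3 =>
      have h4 : ∃ t ∈ E, t ∈ E' := by
        by_contra hcon
        push Not at hcon
        have hdis : Disjoint E E' := Finset.disjoint_left.2 hcon
        have h5 : (E ∪ E') ⊆ Finset.range (M τ.length) := by
          intro t ht
          rcases Finset.mem_union.1 ht with h6 | h6
          · exact Finset.mem_range.2 (hE t h6)
          · exact Finset.mem_range.2 (hE' t h6)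
        have h6 := Finset.card_le_card h5
        rw [Finset.card_union_of_disjoint hdis, Finset.card_range] at h6
        have := hgh τ.length le_rfl
        omega
      obtain ⟨t, ht, ht'⟩ := h4
      exact hi t ht (h3 t ht')

/-- Duality: if `E` is `h`-small above `τ`, then the nodes of level `i` outside `E` are `g`-big. -/
theorem big_compl {E : List ℕ → Prop} (i : ℕ) (hi : τ.length ≤ i)
    (hgh : ∀ l, τ.length ≤ l → g l + h l + 1 ≤ M l) (H : ¬ Big M h E τ) :
    Big M g (fun α => α.length = i ∧ ¬ E α) τ := by
  classical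
  obtain ⟨d, hd⟩ := Nat.exists_eq_add_of_le hi
  induction d generalizing τ with
  | zero => exact .leaf τ ⟨by omega, fun hE => H (.leaf τ hE)⟩
  | succ d ih =>
    have h1 : ((Finset.range (M τ.length)).filter (fun t => Big M h E (τ ++ [t]))).card
        ≤ h τ.length := by
      by_contra hcon
      push Not at hcon
      apply H
      refine .node τ _ (fun t ht => Finset.mem_range.1 (Finset.mem_filter.1 ht).1) hcon
        (fun t ht => (Finset.mem_filter.1 ht).2)
    have h2 := Finset.card_filter_add_card_filter_not (s := Finset.range (M τ.length))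
      (fun t => Big M h E (τ ++ [t]))
    rw [Finset.card_range] at h2
    have h3 := hgh τ.length le_rfl
    refine .node τ ((Finset.range (M τ.length)).filter (fun t => ¬ Big M h E (τ ++ [t])))
      (fun t ht => Finset.mem_range.1 (Finset.mem_filter.1 ht).1) (by omega) (fun t ht => ?_)
    refine ih ?_ ?_ (Finset.mem_filter.1 ht).2 ?_
    · simp; omega
    · intro l hl; apply hgh; simp at hl; omega
    · simp; omega

end Pool.Agent.H99.OF
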