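import Pool.Agent.H99.OF.Big

/-! # Finite certificates for bigness -/

namespace Pool.Agent.H99.OF

variable {M g : ℕ → ℕ} {F : List ℕ → Prop} {τ : List ℕ}

/-- The finite list `Z` is a certificate that `F` is `g`-big above `τ`. -/
def Cert (M g : ℕ → ℕ) (F : List ℕ → Prop) (τ : List ℕ) (Z : List (List ℕ)) : Prop :=
  τ ∈ Z ∧ ∀ ρ ∈ Z, F ρ ∨
    g ρ.length < ((List.range (M ρ.length)).filter (fun t => decide (ρ ++ [t] ∈ Z))).length

theorem Cert.big {Z : List (List ℕ)} (h : Cert M g F τ Z) : Big M g F τ := by
  classical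
  obtain ⟨hτ, hZ⟩ := h
  obtain ⟨L, hL⟩ : ∃ L, ∀ ρ ∈ Z, ρ.length ≤ L := by
    refine ⟨(Z.map List.length).sum, fun ρ hρ => ?_⟩
    exact List.le_sum_of_mem (List.mem_map_of_mem hρ)
  have key : ∀ d, ∀ ρ ∈ Z, L - ρ.length ≤ d → Big M g F ρ := by
    intro d
    induction d with
    | zero =>
      intro ρ hρ hd
      rcases hZ ρ hρ with h1 | h1
      · exact .leaf ρ h1
      · exfalso
        obtain ⟨t, ht⟩ := List.exists_mem_of_length_pos (lt_of_le_of_lt (Nat.zero_le _) h1)
        have h2 := (List.mem_filter.1 ht).2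
        have h3 : ρ ++ [t] ∈ Z := by simpa using h2
        have h4 := hL _ h3
        simp at h4
        omega
    | succ d ih =>
      intro ρ hρ hd
      rcases hZ ρ hρ with h1 | h1
      · exact .leaf ρ h1
      · refine .node ρ ((Finset.range (M ρ.length)).filter (fun t => ρ ++ [t] ∈ Z)) ?_ ?_ ?_
        · intro t ht
          exact Finset.mem_range.1 (Finset.mem_filter.1 ht).1
        · have h2 : ((Finset.range (M ρ.length)).filter (fun t => ρ ++ [t] ∈ Z)).card =
            ((List.range (M ρ.length)).filter (fun t => decide (ρ ++ [t] ∈ Z))).length := by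
            rfl
          rw [h2]; exact h1
        · intro t ht
          have h3 := (Finset.mem_filter.1 ht).2
          apply ih _ h3
          have h4 := hL _ h3
          simp at h4 ⊢
          omega
  exact key _ τ hτ le_rfl

theorem Big.cert (h : Big M g F τ) : ∃ Z, Cert M g F τ Z := by
  classical
  induction h with
  | leaf τ hτ => exact ⟨[τ], by simp, by simp [hτ]⟩
  | node τ D hD hc _ ih =>
    choose! Zt hZt using ih
    refine ⟨τ :: D.toList.flatMap Zt, by simp, ?_⟩
    have hmono : ∀ (Z Z' : List (List ℕ)) (ρ : List ℕ), (∀ α ∈ Z, α ∈ Z') →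
        ((List.range (M ρ.length)).filter (fun t => decide (ρ ++ [t] ∈ Z))).length ≤
        ((List.range (M ρ.length)).filter (fun t => decide (ρ ++ [t] ∈ Z'))).length := by
      intro Z Z' ρ hZZ
      have : ((Finset.range (M ρ.length)).filter (fun t => ρ ++ [t] ∈ Z)).card ≤
          ((Finset.range (M ρ.length)).filter (fun t => ρ ++ [t] ∈ Z')).card := by
        apply Finset.card_le_card
        intro t ht
        rw [Finset.mem_filter] at ht ⊢
        exact ⟨ht.1, hZZ _ ht.2⟩
      exact this
    intro ρ hρ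
    rcases List.mem_cons.1 hρ with rfl | hρ
    · right
      refine lt_of_lt_of_le hc ?_
      have : D.card ≤ ((Finset.range (M ρ.length)).filter
          (fun t => ρ ++ [t] ∈ ρ :: D.toList.flatMap Zt)).card := by
        apply Finset.card_le_card
        intro t ht
        rw [Finset.mem_filter]
        refine ⟨Finset.mem_range.2 (hD t ht), List.mem_cons_of_mem _ ?_⟩
        rw [List.mem_flatMap]
        exact ⟨t, Finset.mem_toList.2 ht, (hZt t ht).1⟩
      exact this
    · rw [List.mem_flatMap] at hρ
      obtain ⟨t, ht, hρt⟩ := hρ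
      have ht' := Finset.mem_toList.1 ht
      rcases (hZt t ht').2 ρ hρt with h1 | h1
      · exact Or.inl h1
      · right
        refine lt_of_lt_of_le h1 (hmono _ _ _ ?_)
        intro α hα
        refine List.mem_cons_of_mem _ ?_
        rw [List.mem_flatMap]
        exact ⟨t, ht, hα⟩

theorem big_iff_cert : Big M g F τ ↔ ∃ Z, Cert M g F τ Z :=
  ⟨Big.cert, fun ⟨_, h⟩ => h.big⟩

end Pool.Agent.H99.OF
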