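import Pool.Agent.H99.OF.Par
import Pool.Agent.H99.OF.Cert

/-! # The computable choice of homogeneous big sets -/

namespace Pool.Agent.H99.OF

theorem comp_choice {W : Type} [Primcodable W] (P : ℕ → W → Prop) (hP : PrimrecRel P)
    (H : ∀ i, ∃ w, P i w) : ∃ c : ℕ → W, Computable c ∧ ∀ i, P i (c i) := by
  classical
  let f : ℕ → ℕ → Option W := fun i k =>
    (Encodable.decode (α := W) k).bind fun w => if P i w then some w else none
  have hf : Primrec₂ f := by
    refine Primrec.option_bind (Primrec.decode.comp Primrec.snd) ?_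
    refine Primrec.ite (hP.comp (Primrec.fst.comp Primrec.fst) Primrec.snd) ?_ (Primrec.const none)
    exact Primrec.option_some.comp Primrec.snd
  have hdom : ∀ i, (Nat.rfindOpt (f i)).Dom := by
    intro i
    rw [Nat.rfindOpt_dom]
    obtain ⟨w, hw⟩ := H i
    refine ⟨Encodable.encode w, w, ?_⟩
    simp [f, hw]
  refine ⟨fun i => (Nat.rfindOpt (f i)).get (hdom i), ?_, ?_⟩
  · have h1 : Partrec (fun i => Nat.rfindOpt (f i)) := Partrec.rfindOpt hf.to_comp
    exact h1.of_eq_tot (fun i => Part.get_mem _)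
  · intro i
    obtain ⟨k, hk⟩ := Nat.rfindOpt_spec (Part.get_mem (hdom i))
    simp only [f, Option.mem_def, Option.bind_eq_some_iff] at hk
    obtain ⟨w, -, hw⟩ := hk
    split_ifs at hw with h2
    · have h3 : w = (Nat.rfindOpt (f i)).get (hdom i) := Option.some.inj hw
      show P i ((Nat.rfindOpt (f i)).get (hdom i))
      rw [← h3]; exact h2

theorem primrec_mem : PrimrecRel (fun (τ : List ℕ) (Z : List (List ℕ)) => τ ∈ Z) := by
  have h1 : PrimrecRel (fun (Z : List (List ℕ)) (τ : List ℕ) => ∃ x ∈ Z, x = τ) :=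
    PrimrecRel.exists_mem_list Primrec.eq
  exact (h1.comp (Primrec.snd (α := List ℕ)) Primrec.fst).of_eq (fun p => by simp)

theorem primrec_cert {α : Type} [Primcodable α] {g : α → ℕ → ℕ} (hg : Primrec₂ g)
    {F : α → List ℕ → Prop} (hF : PrimrecRel F) {τ : α → List ℕ} (hτ : Primrec τ)
    {Z : α → List (List ℕ)} (hZ : Primrec Z) :
    PrimrecPred (fun a => Cert parM (g a) (F a) (τ a) (Z a)) := by
  have h1 : PrimrecPred (fun a => τ a ∈ Z a) := primrec_mem.comp hτ hZ
  have h2 : PrimrecRel (fun (t : ℕ) (b : List ℕ × List (List ℕ)) => b.1 ++ [t] ∈ b.2) :=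
    primrec_mem.comp (Primrec.list_concat.comp (Primrec.fst.comp Primrec.snd) Primrec.fst)
      (Primrec.snd.comp Primrec.snd)
  have h3 : Primrec₂ (fun (L : List ℕ) (b : List ℕ × List (List ℕ)) =>
      L.filter (fun t => decide (b.1 ++ [t] ∈ b.2))) := h2.listFilter
  have h4 : Primrec (fun q : List ℕ × α => ((List.range (parM q.1.length)).filter
      (fun t => decide (q.1 ++ [t] ∈ Z q.2))).length) :=
    Primrec.list_length.comp (h3.comp (Primrec.list_range.comp (primrec_parM.comp
      (Primrec.list_length.comp Primrec.fst))) (Primrec.pair Primrec.fst (hZ.comp Primrec.snd)))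
  have h5 : PrimrecRel (fun (ρ : List ℕ) (a : α) => F a ρ ∨
      g a ρ.length < ((List.range (parM ρ.length)).filter
        (fun t => decide (ρ ++ [t] ∈ Z a))).length) := by
    refine PrimrecPred.or (hF.comp Primrec.snd Primrec.fst) ?_
    exact Primrec.nat_lt.comp (hg.comp Primrec.snd (Primrec.list_length.comp Primrec.fst)) h4
  exact h1.and ((PrimrecRel.forall_mem_list h5).comp hZ Primrec.id)

/-- The type of the finite objects searched for. -/
abbrev Wit : Type := List (ℕ × ℕ × List (List ℕ)) × List (List ℕ)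

/-- The property searched for at level `i`. -/
def Good (φ : List ℕ → ℕ → Option ℕ) (σ : List ℕ) (r : ℕ) (i : ℕ) (w : Wit) : Prop :=
  (∀ e ∈ w.1, (node parM e.1).length = i ∧
    Cert parM (fun l => i * parF l) (fun ρ => φ ρ e.1 = some e.2.1) (node parM e.1) e.2.2) ∧
  Cert parM (fun l => parM l - 1 - r * parF l) (fun τ => ∃ e ∈ w.1, node parM e.1 = τ) σ w.2

theorem primrec_good (φ : List ℕ → ℕ → Option ℕ) (hφ : Primrec₂ φ) (σ : List ℕ) (r : ℕ) :
    PrimrecRel (Good φ σ r) := by
  have hnode := primrec_node primrec_parM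
  have h1 : PrimrecRel (fun (e : ℕ × ℕ × List (List ℕ)) (i : ℕ) => (node parM e.1).length = i ∧
      Cert parM (fun l => i * parF l) (fun ρ => φ ρ e.1 = some e.2.1) (node parM e.1) e.2.2) := by
    refine PrimrecPred.and ?_ ?_
    · exact Primrec.eq.comp (Primrec.list_length.comp (hnode.comp (Primrec.fst.comp Primrec.fst)))
        Primrec.snd
    · refine primrec_cert (α := (ℕ × ℕ × List (List ℕ)) × ℕ) (g := fun a l => a.2 * parF l)
        (F := fun a ρ => φ ρ a.1.1 = some a.1.2.1) (τ := fun a => node parM a.1.1)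
        (Z := fun a => a.1.2.2) ?_ ?_ ?_ ?_
      · exact Primrec.nat_mul.comp (Primrec.snd.comp Primrec.fst) (primrec_parF.comp Primrec.snd)
      · exact Primrec.eq.comp (hφ.comp Primrec.snd
          (Primrec.fst.comp (Primrec.fst.comp Primrec.fst)))
          (Primrec.option_some.comp (Primrec.fst.comp (Primrec.snd.comp
            (Primrec.fst.comp Primrec.fst))))
      · exact hnode.comp (Primrec.fst.comp Primrec.fst)
      · exact Primrec.snd.comp (Primrec.snd.comp Primrec.fst)
  have h2 : PrimrecPred (fun q : ℕ × Wit => ∀ e ∈ q.2.1, (node parM e.1).length = q.1 ∧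
      Cert parM (fun l => q.1 * parF l) (fun ρ => φ ρ e.1 = some e.2.1)
        (node parM e.1) e.2.2) :=
    (PrimrecRel.forall_mem_list h1).comp (Primrec.fst.comp Primrec.snd) Primrec.fst
  have h3 : PrimrecPred (fun q : ℕ × Wit => Cert parM (fun l => parM l - 1 - r * parF l)
      (fun τ => ∃ e ∈ q.2.1, node parM e.1 = τ) σ q.2.2) := by
    refine primrec_cert (α := ℕ × Wit) (g := fun _ l => parM l - 1 - r * parF l)
      (F := fun a τ => ∃ e ∈ a.2.1, node parM e.1 = τ) (τ := fun _ => σ)
      (Z := fun a => a.2.2) ?_ ?_ (Primrec.const σ) (Primrec.snd.comp Primrec.snd)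
    · exact Primrec.nat_sub.comp (Primrec.nat_sub.comp (primrec_parM.comp Primrec.snd)
        (Primrec.const 1)) (Primrec.nat_mul.comp (Primrec.const r) (primrec_parF.comp Primrec.snd))
    · have h4 : PrimrecRel (fun (e : ℕ × ℕ × List (List ℕ)) (τ : List ℕ) =>
          node parM e.1 = τ) :=
        Primrec.eq.comp (hnode.comp (Primrec.fst.comp Primrec.fst)) Primrec.snd
      exact (PrimrecRel.exists_mem_list h4).comp
        (Primrec.fst.comp (Primrec.snd.comp Primrec.fst)) Primrec.snd
  exact h2.and h3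

theorem exists_comp (φ : List ℕ → ℕ → Option ℕ) (hφ : Primrec₂ φ) (σ : List ℕ) (r i1 : ℕ)
    (H : ∀ i, i1 ≤ i → Big parM (fun l => parM l - 1 - r * parF l)
        (fun τ => τ.length = i ∧ ∃ n v, node parM n = τ ∧
          Big parM (fun l => i * parF l) (fun ρ => φ ρ n = some v) τ) σ) :
    ∃ x : ℕ → ℕ, Computable x ∧ ∀ i, i1 ≤ i → Big parM (fun l => parM l - 1 - r * parF l)
        (fun τ => τ.length = i ∧ ∃ n, node parM n = τ ∧
          Big parM (fun l => i * parF l) (fun ρ => φ ρ n = some (x n)) τ) σ := by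
  classical
  have hex : ∀ i, i1 ≤ i → ∃ w, Good φ σ r i w := by
    intro i hi
    obtain ⟨Z, hZ1, hZ2⟩ := (H i hi).cert
    have h1 : ∀ τ : List ℕ, ∃ e : ℕ × ℕ × List (List ℕ), (τ.length = i ∧ ∃ n v,
        node parM n = τ ∧ Big parM (fun l => i * parF l) (fun ρ => φ ρ n = some v) τ) →
        node parM e.1 = τ ∧ Cert parM (fun l => i * parF l) (fun ρ => φ ρ e.1 = some e.2.1)
          (node parM e.1) e.2.2 := by
      intro τ
      by_cases hτ : τ.length = i ∧ ∃ n v,
        node parM n = τ ∧ Big parM (fun l => i * parF l) (fun ρ => φ ρ n = some v) τ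
      · obtain ⟨-, n, v, h2, h3⟩ := hτ
        obtain ⟨Z', hZ'⟩ := h3.cert
        refine ⟨(n, v, Z'), fun _ => ⟨h2, ?_⟩⟩
        rw [h2]; exact hZ'
      · exact ⟨(0, 0, []), fun h => absurd h hτ⟩
    choose e he using h1
    refine ⟨((Z.filter (fun τ => decide (τ.length = i ∧ ∃ n v,
        node parM n = τ ∧ Big parM (fun l => i * parF l) (fun ρ => φ ρ n = some v) τ))).map e, Z),
      ?_, hZ1, ?_⟩
    · intro e' he'
      obtain ⟨τ, hτ, rfl⟩ := List.mem_map.1 he'
      have h2 := (List.mem_filter.1 hτ).2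
      rw [decide_eq_true_eq] at h2
      have h3 := he τ h2
      refine ⟨?_, h3.2⟩
      rw [h3.1]; exact h2.1
    · intro ρ hρ
      rcases hZ2 ρ hρ with h2 | h2
      · left
        refine ⟨e ρ, List.mem_map.2 ⟨ρ, List.mem_filter.2 ⟨hρ, ?_⟩, rfl⟩, (he ρ h2).1⟩
        rw [decide_eq_true_eq]; exact h2
      · exact Or.inr h2
  obtain ⟨c, hc, hgood⟩ := comp_choice (W := Wit) (fun i w => i < i1 ∨ Good φ σ r i w)
    (PrimrecPred.or (Primrec.nat_lt.comp Primrec.fst (Primrec.const i1)) (primrec_good φ hφ σ r))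
    (fun i => by
      rcases Nat.lt_or_ge i i1 with h | h
      · exact ⟨([], []), Or.inl h⟩
      · obtain ⟨w, hw⟩ := hex i h
        exact ⟨w, Or.inr hw⟩)
  let x : ℕ → ℕ := fun n => ((List.lookup n (c (node parM n).length).1).map Prod.fst).getD 0
  have hx : Computable x := by
    have h1 : Computable (fun n => (c (node parM n).length).1) :=
      Computable.fst.comp (hc.comp
        ((Primrec.list_length.comp (primrec_node primrec_parM)).to_comp))
    have h2 : Primrec₂ (fun (n : ℕ) (L : List (ℕ × ℕ × List (List ℕ))) =>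
        ((List.lookup n L).map Prod.fst).getD 0) := by
      refine Primrec.option_getD.comp (Primrec.option_map Primrec.listLookup ?_)
        (Primrec.const 0)
      exact Primrec.fst.comp Primrec.snd
    exact h2.to_comp.comp Computable.id h1
  refine ⟨x, hx, fun i hi => ?_⟩
  have h1 := (hgood i).resolve_left (by omega)
  refine h1.2.big.mono ?_ (fun _ _ => le_rfl)
  rintro τ ⟨e, he, hnode⟩
  have h2 := h1.1 e he
  refine ⟨by rw [← hnode]; exact h2.1, e.1, hnode, ?_⟩
  -- the value found by the lookup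
  have h3 : ∃ b : ℕ × List (List ℕ), List.lookup e.1 (c i).1 = some b ∧ (e.1, b) ∈ (c i).1 := by
    have : ∀ L : List (ℕ × ℕ × List (List ℕ)), e ∈ L →
        ∃ b : ℕ × List (List ℕ), List.lookup e.1 L = some b ∧ (e.1, b) ∈ L := by
      intro L
      induction L with
      | nil => intro h; simp at h
      | cons a L ih =>
        intro h
        obtain ⟨a1, a2⟩ := a
        by_cases ha : e.1 = a1
        · subst ha
          exact ⟨a2, by simp [List.lookup], by simp⟩
        · have h5 : e ∈ L := by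
            rcases List.mem_cons.1 h with h6 | h6
            · exact absurd (by rw [h6]) ha
            · exact h6
          obtain ⟨b, hb1, hb2⟩ := ih h5
          refine ⟨b, ?_, List.mem_cons_of_mem _ hb2⟩
          have : (e.1 == a1) = false := by simpa using ha
          rw [List.lookup_cons, this]
          exact hb1
    exact this _ he
  obtain ⟨b, hb1, hb2⟩ := h3
  have h4 := h1.1 _ hb2
  have h5 : x e.1 = b.1 := by
    simp only [x]
    rw [h2.1, hb1]
    rfl
  rw [h5, ← hnode]
  exact h4.2.big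

end Pool.Agent.H99.OF
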