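import Mathlib

/-! # The use principle

A partial function recursive in a total oracle `G` is given by a primitive recursive monotone
functional on finite initial segments of `G`. -/

namespace Pool.Agent.H99.OF

/-- The first `k` values of `G`. -/
def ini (G : ℕ → ℕ) (k : ℕ) : List ℕ := (List.range k).map G

/-- A monotone primitive recursive functional on finite strings. -/
structure IsFun (φ : List ℕ → ℕ → Option ℕ) : Prop where
  prim : Primrec₂ φ
  mono : ∀ σ τ n v, σ <+: τ → φ σ n = some v → φ τ n = some v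

theorem ini_prefix (G : ℕ → ℕ) {j k : ℕ} (h : j ≤ k) : ini G j <+: ini G k := by
  unfold ini
  apply List.IsPrefix.map
  obtain ⟨d, rfl⟩ := Nat.exists_eq_add_of_le h
  rw [List.range_add]
  exact List.prefix_append _ _

/-- `φ` computes `f` from the oracle `G`. -/
def Gives (G : ℕ → ℕ) (φ : List ℕ → ℕ → Option ℕ) (f : ℕ →. ℕ) : Prop :=
  ∀ n v, v ∈ f n ↔ ∃ k, φ (ini G k) n = some v

theorem use_pair {G : ℕ → ℕ} {f h : ℕ →. ℕ} {φ ψ : List ℕ → ℕ → Option ℕ}
    (hφ : IsFun φ) (hφf : Gives G φ f) (hψ : IsFun ψ) (hψh : Gives G ψ h) :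
    ∃ χ, IsFun χ ∧ Gives G χ (fun n => (Nat.pair <$> f n <*> h n)) := by
  refine ⟨fun σ n => (φ σ n).bind fun a => (ψ σ n).map fun b => Nat.pair a b, ⟨?_, ?_⟩, ?_⟩
  · refine Primrec.option_bind hφ.prim ?_
    refine Primrec.option_map (hψ.prim.comp (Primrec.fst.comp Primrec.fst)
      (Primrec.snd.comp Primrec.fst)) ?_
    exact Primrec₂.natPair.comp (Primrec.snd.comp Primrec.fst) Primrec.snd
  · intro σ τ n v hστ h1
    simp only [Option.bind_eq_some_iff, Option.map_eq_some_iff] at h1 ⊢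
    obtain ⟨a, ha, b, hb, hv⟩ := h1
    exact ⟨a, hφ.mono _ _ _ _ hστ ha, b, hψ.mono _ _ _ _ hστ hb, hv⟩
  · intro n v
    have h2 : v ∈ (Nat.pair <$> f n <*> h n) ↔ ∃ a ∈ f n, ∃ b ∈ h n, Nat.pair a b = v := by
      simp [Seq.seq]
    rw [h2]
    constructor
    · rintro ⟨a, ha, b, hb, rfl⟩
      obtain ⟨k1, hk1⟩ := (hφf n a).1 ha
      obtain ⟨k2, hk2⟩ := (hψh n b).1 hb
      refine ⟨max k1 k2, ?_⟩
      simp only [Option.bind_eq_some_iff, Option.map_eq_some_iff]
      exact ⟨a, hφ.mono _ _ _ _ (ini_prefix G (le_max_left _ _)) hk1, b,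
        hψ.mono _ _ _ _ (ini_prefix G (le_max_right _ _)) hk2, rfl⟩
    · rintro ⟨k, hk⟩
      simp only [Option.bind_eq_some_iff, Option.map_eq_some_iff] at hk
      obtain ⟨a, ha, b, hb, hv⟩ := hk
      exact ⟨a, (hφf n a).2 ⟨k, ha⟩, b, (hψh n b).2 ⟨k, hb⟩, hv⟩

theorem use_comp {G : ℕ → ℕ} {f h : ℕ →. ℕ} {φ ψ : List ℕ → ℕ → Option ℕ}
    (hφ : IsFun φ) (hφf : Gives G φ f) (hψ : IsFun ψ) (hψh : Gives G ψ h) :
    ∃ χ, IsFun χ ∧ Gives G χ (fun n => h n >>= f) := by
  refine ⟨fun σ n => (ψ σ n).bind fun a => φ σ a, ⟨?_, ?_⟩, ?_⟩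
  · refine Primrec.option_bind hψ.prim ?_
    exact hφ.prim.comp (Primrec.fst.comp Primrec.fst) Primrec.snd
  · intro σ τ n v hστ h1
    simp only [Option.bind_eq_some_iff] at h1 ⊢
    obtain ⟨a, ha, hv⟩ := h1
    exact ⟨a, hψ.mono _ _ _ _ hστ ha, hφ.mono _ _ _ _ hστ hv⟩
  · intro n v
    have h2 : v ∈ (h n >>= f) ↔ ∃ a ∈ h n, v ∈ f a := Part.mem_bind_iff
    rw [h2]
    constructor
    · rintro ⟨a, ha, hb⟩
      obtain ⟨k1, hk1⟩ := (hψh n a).1 ha
      obtain ⟨k2, hk2⟩ := (hφf a v).1 hb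
      refine ⟨max k1 k2, ?_⟩
      simp only [Option.bind_eq_some_iff]
      exact ⟨a, hψ.mono _ _ _ _ (ini_prefix G (le_max_left _ _)) hk1,
        hφ.mono _ _ _ _ (ini_prefix G (le_max_right _ _)) hk2⟩
    · rintro ⟨k, hk⟩
      simp only [Option.bind_eq_some_iff] at hk
      obtain ⟨a, ha, hb⟩ := hk
      exact ⟨a, (hψh n a).2 ⟨k, ha⟩, (hφf a v).2 ⟨k, hb⟩⟩

theorem use_prec {G : ℕ → ℕ} {f h : ℕ →. ℕ} {φ ψ : List ℕ → ℕ → Option ℕ}
    (hφ : IsFun φ) (hφf : Gives G φ f) (hψ : IsFun ψ) (hψh : Gives G ψ h) :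
    ∃ χ, IsFun χ ∧ Gives G χ (fun p =>
        let (a, n) := Nat.unpair p
        n.rec (f a) fun y IH => do
          let i ← IH
          h (Nat.pair a (Nat.pair y i))) := by
  let ρ : List ℕ → ℕ → ℕ → Option ℕ := fun σ a n =>
    Nat.rec (φ σ a) (fun y IH => IH.bind fun i => ψ σ (Nat.pair a (Nat.pair y i))) n
  have hρmono : ∀ n σ τ a v, σ <+: τ → ρ σ a n = some v → ρ τ a n = some v := by
    intro n
    induction n with
    | zero => intro σ τ a v h1 h2; exact hφ.mono _ _ _ _ h1 h2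
    | succ n ih =>
      intro σ τ a v h1 h2
      simp only [ρ, Option.bind_eq_some_iff] at h2 ⊢
      obtain ⟨i, hi, hv⟩ := h2
      exact ⟨i, ih _ _ _ _ h1 hi, hψ.mono _ _ _ _ h1 hv⟩
  refine ⟨fun σ p => ρ σ p.unpair.1 p.unpair.2, ⟨?_, ?_⟩, ?_⟩
  · have h1 : Primrec (fun q : List ℕ × ℕ => φ q.1 q.2.unpair.1) :=
      hφ.prim.comp Primrec.fst (Primrec.fst.comp (Primrec.unpair.comp Primrec.snd))
    have h2 : Primrec₂ (fun (q : List ℕ × ℕ) (w : ℕ × Option ℕ) =>
        w.2.bind fun i => ψ q.1 (Nat.pair q.2.unpair.1 (Nat.pair w.1 i))) := by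
      refine Primrec.option_bind (Primrec.snd.comp Primrec.snd) ?_
      refine hψ.prim.comp (Primrec.fst.comp (Primrec.fst.comp Primrec.fst)) ?_
      refine Primrec₂.natPair.comp ?_ ?_
      · exact Primrec.fst.comp (Primrec.unpair.comp
          (Primrec.snd.comp (Primrec.fst.comp Primrec.fst)))
      · exact Primrec₂.natPair.comp (Primrec.fst.comp (Primrec.snd.comp Primrec.fst)) Primrec.snd
    exact Primrec.nat_rec' (f := fun q : List ℕ × ℕ => q.2.unpair.2)
      (Primrec.snd.comp (Primrec.unpair.comp Primrec.snd)) h1 h2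
  · intro σ τ n v hστ h1
    exact hρmono _ _ _ _ _ hστ h1
  · intro p v
    have key : ∀ a n v, v ∈ (Nat.rec (f a) (fun y IH => do
          let i ← IH
          h (Nat.pair a (Nat.pair y i))) n : Part ℕ) ↔ ∃ k, ρ (ini G k) a n = some v := by
      intro a n
      induction n with
      | zero => intro v; exact hφf a v
      | succ n ih =>
        intro v
        constructor
        · intro h1
          simp only [Part.bind_eq_bind, Part.mem_bind_iff] at h1
          obtain ⟨i, hi, hv⟩ := h1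
          obtain ⟨k1, hk1⟩ := (ih i).1 hi
          obtain ⟨k2, hk2⟩ := (hψh _ v).1 hv
          refine ⟨max k1 k2, ?_⟩
          simp only [ρ, Option.bind_eq_some_iff]
          exact ⟨i, hρmono _ _ _ _ _ (ini_prefix G (le_max_left _ _)) hk1,
            hψ.mono _ _ _ _ (ini_prefix G (le_max_right _ _)) hk2⟩
        · rintro ⟨k, hk⟩
          simp only [ρ, Option.bind_eq_some_iff] at hk
          obtain ⟨i, hi, hv⟩ := hk
          simp only [Part.bind_eq_bind, Part.mem_bind_iff]
          exact ⟨i, (ih i).2 ⟨k, hi⟩, (hψh _ v).2 ⟨k, hv⟩⟩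
    exact key p.unpair.1 p.unpair.2 v

/-- Bounded search. -/
def srch (φ : List ℕ → ℕ → Option ℕ) (σ : List ℕ) (a : ℕ) (k : ℕ) : Option (Option ℕ) :=
  Nat.rec (some none) (fun k IH => IH.bind fun w =>
    Option.casesOn w ((φ σ (Nat.pair a k)).map (fun m => if m = 0 then some k else none))
      (fun n => some (some n))) k

theorem use_rfind {G : ℕ → ℕ} {f : ℕ →. ℕ} {φ : List ℕ → ℕ → Option ℕ}
    (hφ : IsFun φ) (hφf : Gives G φ f) :
    ∃ χ, IsFun χ ∧ Gives G χ (fun a =>
        Nat.rfind fun n => (fun m => m = 0) <$> f (Nat.pair a n)) := by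
  have hs : ∀ σ a k, srch φ σ a (k + 1) = (srch φ σ a k).bind fun w =>
    Option.casesOn w ((φ σ (Nat.pair a k)).map (fun m => if m = 0 then some k else none))
      (fun n => some (some n)) := fun _ _ _ => rfl
  have hmono : ∀ k σ τ a w, σ <+: τ → srch φ σ a k = some w → srch φ τ a k = some w := by
    intro k
    induction k with
    | zero => intro σ τ a w _ h; exact h
    | succ k ih =>
      intro σ τ a w h1 h2
      rw [hs, Option.bind_eq_some_iff] at h2
      obtain ⟨u, hu, h3⟩ := h2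
      rw [hs, ih _ _ _ _ h1 hu]
      rcases u with _ | u
      · simp only [Option.map_eq_some_iff] at h3
        obtain ⟨m, hm, h4⟩ := h3
        simp only [Option.bind_some, hφ.mono _ _ _ _ h1 hm, Option.map_some, h4]
      · exact h3
  have hstep : ∀ σ a k d n, srch φ σ a k = some (some n) → srch φ σ a (k + d) = some (some n) := by
    intro σ a k d n h
    induction d with
    | zero => exact h
    | succ d ih => rw [← add_assoc, hs, ih]; rfl
  have hnone : ∀ σ a k, srch φ σ a k = some none ↔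
      ∀ m, m < k → ∃ w, φ σ (Nat.pair a m) = some (w + 1) := by
    intro σ a k
    induction k with
    | zero => simp [srch]
    | succ k ih =>
      rw [hs, Option.bind_eq_some_iff]
      constructor
      · rintro ⟨u, hu, h3⟩ m hm
        rcases u with _ | u
        · rcases Nat.lt_succ_iff_lt_or_eq.1 hm with h4 | rfl
          · exact ih.1 hu m h4
          · simp only [Option.map_eq_some_iff] at h3
            obtain ⟨x, hx, h4⟩ := h3
            rcases x with _ | x
            · simp at h4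
            · exact ⟨x, hx⟩
        · simp at h3
      · intro H
        refine ⟨none, ih.2 (fun m hm => H m (by omega)), ?_⟩
        obtain ⟨w, hw⟩ := H k (by omega)
        simp [hw]
  have hsome : ∀ σ a k n, srch φ σ a k = some (some n) ↔ n < k ∧ φ σ (Nat.pair a n) = some 0 ∧
      ∀ m, m < n → ∃ w, φ σ (Nat.pair a m) = some (w + 1) := by
    intro σ a k n
    induction k with
    | zero => simp [srch]
    | succ k ih =>
      rw [hs, Option.bind_eq_some_iff]
      constructor
      · rintro ⟨u, hu, h3⟩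
        rcases u with _ | u
        · simp only [Option.map_eq_some_iff] at h3
          obtain ⟨x, hx, h4⟩ := h3
          rcases x with _ | x
          · simp only [if_true, Option.some.injEq] at h4
            subst h4
            exact ⟨by omega, hx, (hnone σ a k).1 hu⟩
          · simp at h4
        · simp only [Option.some.injEq] at h3
          subst h3
          obtain ⟨h4, h5, h6⟩ := ih.1 hu
          exact ⟨by omega, h5, h6⟩
      · rintro ⟨h1, h2, h3⟩
        rcases Nat.lt_succ_iff_lt_or_eq.1 h1 with h4 | rfl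
        · exact ⟨some n, ih.2 ⟨h4, h2, h3⟩, rfl⟩
        · refine ⟨none, (hnone σ a n).2 h3, ?_⟩
          simp [h2]
  refine ⟨fun σ a => (srch φ σ a σ.length).bind id, ⟨?_, ?_⟩, ?_⟩
  · have h1 : Primrec₂ (fun (q : List ℕ × ℕ) (w : ℕ × Option (Option ℕ)) =>
        w.2.bind fun u => (Option.casesOn u
          ((φ q.1 (Nat.pair q.2 w.1)).map (fun m => if m = 0 then some w.1 else none))
          (fun n => some (some n)) : Option (Option ℕ))) := by
      refine Primrec.option_bind (Primrec.snd.comp Primrec.snd) ?_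
      refine (Primrec.option_casesOn (o := fun z :
          ((List ℕ × ℕ) × ℕ × Option (Option ℕ)) × Option ℕ => z.2)
        (f := fun z => (φ z.1.1.1 (Nat.pair z.1.1.2 z.1.2.1)).map
          (fun m => if m = 0 then some z.1.2.1 else none))
        (g := fun _ n => some (some n)) Primrec.snd ?_ ?_)
      · refine Primrec.option_map (hφ.prim.comp ?_ ?_) ?_
        · exact Primrec.fst.comp (Primrec.fst.comp Primrec.fst)
        · exact Primrec₂.natPair.comp (Primrec.snd.comp (Primrec.fst.comp Primrec.fst))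
            (Primrec.fst.comp (Primrec.snd.comp Primrec.fst))
        · refine Primrec.ite (Primrec.eq.comp Primrec.snd (Primrec.const 0)) ?_
            (Primrec.const none)
          exact Primrec.option_some.comp
            (Primrec.fst.comp (Primrec.snd.comp (Primrec.fst.comp Primrec.fst)))
      · exact Primrec.option_some.comp (Primrec.option_some.comp Primrec.snd)
    have h2 : Primrec (fun q : List ℕ × ℕ => srch φ q.1 q.2 q.1.length) :=
      Primrec.nat_rec' (f := fun q : List ℕ × ℕ => q.1.length)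
        (Primrec.list_length.comp Primrec.fst) (Primrec.const (some none)) h1
    exact Primrec.option_bind h2 (Primrec.snd (α := List ℕ × ℕ)).to₂
  · intro σ τ n v hστ h1
    simp only [Option.bind_eq_some_iff, id] at h1 ⊢
    obtain ⟨u, hu, rfl⟩ := h1
    refine ⟨some v, ?_, rfl⟩
    have h2 := hmono _ _ _ _ _ hστ hu
    obtain ⟨d, hd⟩ := Nat.exists_eq_add_of_le hστ.length_le
    rw [hd]
    exact hstep _ _ _ _ _ h2
  · intro a v
    have h2 : v ∈ (Nat.rfind fun n => (fun m => decide (m = 0)) <$> f (Nat.pair a n)) ↔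
        0 ∈ f (Nat.pair a v) ∧ ∀ m, m < v → ∃ w, (w + 1) ∈ f (Nat.pair a m) := by
      refine Nat.mem_rfind.trans ?_
      have e : ∀ (b : Bool) m, (b ∈ ((fun m => decide (m = 0)) <$> f (Nat.pair a m) : Part Bool)) ↔
          ∃ w ∈ f (Nat.pair a m), decide (w = 0) = b := fun b m => Part.mem_map_iff _
      constructor
      · rintro ⟨h1, h3⟩
        obtain ⟨w, hw, h5⟩ := (e _ _).1 h1
        have h6 : w = 0 := by simpa using h5
        subst h6
        refine ⟨hw, fun m hm => ?_⟩
        obtain ⟨w, hw, h5⟩ := (e _ _).1 (h3 hm)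
        have h6 : w ≠ 0 := by simpa using h5
        exact ⟨w - 1, by rwa [Nat.sub_add_cancel (Nat.one_le_iff_ne_zero.2 h6)]⟩
      · rintro ⟨h1, h3⟩
        refine ⟨(e _ _).2 ⟨0, h1, rfl⟩, fun {m} hm => ?_⟩
        obtain ⟨w, hw⟩ := h3 m hm
        exact (e _ _).2 ⟨w + 1, hw, by simp⟩
    rw [h2]
    constructor
    · rintro ⟨h1, h3⟩
      obtain ⟨k0, hk0⟩ := (hφf _ _).1 h1
      have h4 : ∃ k1, ∀ m, m < v → ∃ w, φ (ini G k1) (Nat.pair a m) = some (w + 1) := by
        clear h2 h1 hk0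
        induction v with
        | zero => exact ⟨0, by simp⟩
        | succ v ih =>
          obtain ⟨k1, hk1⟩ := ih (fun m hm => h3 m (by omega))
          obtain ⟨w, hw⟩ := h3 v (by omega)
          obtain ⟨k2, hk2⟩ := (hφf _ _).1 hw
          refine ⟨max k1 k2, fun m hm => ?_⟩
          rcases Nat.lt_succ_iff_lt_or_eq.1 hm with h5 | rfl
          · obtain ⟨w', hw'⟩ := hk1 m h5
            exact ⟨w', hφ.mono _ _ _ _ (ini_prefix G (le_max_left _ _)) hw'⟩
          · exact ⟨w, hφ.mono _ _ _ _ (ini_prefix G (le_max_right _ _)) hk2⟩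
      obtain ⟨k1, hk1⟩ := h4
      refine ⟨max (max k0 k1) (v + 1), ?_⟩
      have hlen : (ini G (max (max k0 k1) (v + 1))).length = max (max k0 k1) (v + 1) := by
        simp [ini]
      simp only [Option.bind_eq_some_iff, id]
      refine ⟨some v, (hsome _ _ _ _).2 ⟨?_, ?_, ?_⟩, rfl⟩
      · rw [hlen]; omega
      · exact hφ.mono _ _ _ _ (ini_prefix G (by omega)) hk0
      · intro m hm
        obtain ⟨w, hw⟩ := hk1 m hm
        exact ⟨w, hφ.mono _ _ _ _ (ini_prefix G (by omega)) hw⟩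
    · rintro ⟨k, hk⟩
      simp only [Option.bind_eq_some_iff, id] at hk
      obtain ⟨u, hu, rfl⟩ := hk
      obtain ⟨-, h3, h4⟩ := (hsome _ _ _ _).1 hu
      refine ⟨(hφf _ _).2 ⟨k, h3⟩, fun m hm => ?_⟩
      obtain ⟨w, hw⟩ := h4 m hm
      exact ⟨w, (hφf _ _).2 ⟨k, hw⟩⟩

theorem use_principle (G : ℕ → ℕ) {f : ℕ →. ℕ}
    (hf : Nat.RecursiveIn {fun n => Part.some (G n)} f) :
    ∃ φ, IsFun φ ∧ Gives G φ f := by
  induction hf with
  | zero =>
    refine ⟨fun _ _ => some 0, ⟨Primrec.const _, fun _ _ _ _ _ h => h⟩, fun n v => ?_⟩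
    have : v ∈ (0 : Part ℕ) ↔ v = 0 := Part.mem_some_iff
    rw [this]
    simp [eq_comm]
  | succ =>
    refine ⟨fun _ n => some (n + 1), ⟨?_, fun _ _ _ _ _ h => h⟩, fun n v => ?_⟩
    · exact Primrec.option_some.comp (Primrec.succ.comp Primrec.snd)
    · simp [eq_comm]
  | left =>
    refine ⟨fun _ n => some n.unpair.1, ⟨?_, fun _ _ _ _ _ h => h⟩, fun n v => ?_⟩
    · exact Primrec.option_some.comp (Primrec.fst.comp (Primrec.unpair.comp Primrec.snd))
    · simp [eq_comm]
  | right =>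
    refine ⟨fun _ n => some n.unpair.2, ⟨?_, fun _ _ _ _ _ h => h⟩, fun n v => ?_⟩
    · exact Primrec.option_some.comp (Primrec.snd.comp (Primrec.unpair.comp Primrec.snd))
    · simp [eq_comm]
  | oracle g hg =>
    have hg' : g = fun n => Part.some (G n) := hg
    subst hg'
    refine ⟨fun σ n => σ[n]?, ⟨Primrec.list_getElem?, ?_⟩, fun n v => ?_⟩
    · intro σ τ n v h1 h2
      obtain ⟨ρ, rfl⟩ := h1
      have h3 : n < σ.length := (List.getElem?_eq_some_iff.1 h2).1
      rw [List.getElem?_append_left h3]; exact h2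
    · simp only [Part.mem_some_iff, ini]
      constructor
      · rintro rfl
        exact ⟨n + 1, by simp⟩
      · rintro ⟨k, hk⟩
        simp only [List.getElem?_map, Option.map_eq_some_iff] at hk
        obtain ⟨m, hm, rfl⟩ := hk
        rw [List.getElem?_eq_some_iff] at hm
        obtain ⟨h1, h2⟩ := hm
        simp at h2
        rw [h2]
  | pair _ _ ih1 ih2 =>
    obtain ⟨φ, h1, h2⟩ := ih1
    obtain ⟨ψ, h3, h4⟩ := ih2
    exact use_pair h1 h2 h3 h4
  | comp _ _ ih1 ih2 =>
    obtain ⟨φ, h1, h2⟩ := ih1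
    obtain ⟨ψ, h3, h4⟩ := ih2
    exact use_comp h1 h2 h3 h4
  | prec _ _ ih1 ih2 =>
    obtain ⟨φ, h1, h2⟩ := ih1
    obtain ⟨ψ, h3, h4⟩ := ih2
    exact use_prec h1 h2 h3 h4
  | rfind _ ih =>
    obtain ⟨φ, h1, h2⟩ := ih
    exact use_rfind h1 h2

end Pool.Agent.H99.OF
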