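import Pool.Agent.H99.OF.Par
import Pool.Agent.H99.OF.Use
import Pool.Agent.H99.OF.Search

/-! # Forcing conditions -/

namespace Pool.Agent.H99.OF

open Filter

theorem exists_lev (k : ℕ) : ∃ i, k < parK (i + 1) := by
  refine ⟨k, ?_⟩
  have h1 : k ≤ parK k := parK_strictMono.id_le k
  have h2 := parK_lt_succ k
  omega

/-- The level of the coordinate `k`. -/
def lev (k : ℕ) : ℕ := Nat.find (exists_lev k)

/-- The value at the coordinate `k` coded by the node `ρ`. -/
def yv (ρ : List ℕ) (k : ℕ) : ℕ := (ρ[lev k]?.getD 0) % 2 ^ k.factorial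

theorem lev_eq {k i : ℕ} (h1 : parK i ≤ k) (h2 : k < parK (i + 1)) : lev k = i := by
  unfold lev
  rw [Nat.find_eq_iff]
  refine ⟨h2, fun j hj => ?_⟩
  have : parK (j + 1) ≤ parK i := parK_strictMono.monotone hj
  omega

theorem lev_lt {k i : ℕ} (h : k < parK i) (hi : 0 < i) : lev k < i := by
  obtain ⟨j, rfl⟩ := Nat.exists_eq_succ_of_ne_zero hi.ne'
  exact lt_of_le_of_lt (Nat.find_min' _ h) (Nat.lt_succ_self j)

/-- A condition: a stem, a number of units and a small set of forbidden nodes. -/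
structure Cond where
  σ : List ℕ
  r : ℕ
  B : List ℕ → Prop
  valid : Valid parM σ
  room : r ≤ parR σ.length
  small : ¬ Big parM (fun l => r * parF l) B σ

/-- `q` extends `p`. -/
def Ext (q p : Cond) : Prop := p.σ <+: q.σ ∧ ∀ ρ, p.B ρ → q.B ρ

theorem Ext.refl (p : Cond) : Ext p p := ⟨List.prefix_rfl, fun _ h => h⟩

theorem Ext.trans {p q r : Cond} (h1 : Ext r q) (h2 : Ext q p) : Ext r p :=
  ⟨h2.1.trans h1.1, fun ρ h => h1.2 ρ (h2.2 ρ h)⟩

theorem Cond.not_mem (p : Cond) : ¬ p.B p.σ := fun h => p.small (.leaf _ h)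

theorem room_of {r l i : ℕ} (h : r ≤ parR l) (hl : l ≤ i) : r * parF i < parM i := by
  have h1 : r ≤ parR i := h.trans (parR_mono hl)
  have h2 := room_lt i
  have h3 : r * parF i ≤ parR i * parF i := Nat.mul_le_mul_right _ h1
  omega

theorem room_of2 {r s l i : ℕ} (h : r ≤ parR l) (h' : s ≤ parR l) (hl : l ≤ i) :
    r * parF i + s * parF i + 1 ≤ parM i := by
  have h1 : r ≤ parR i := h.trans (parR_mono hl)
  have h1' : s ≤ parR i := h'.trans (parR_mono hl)
  have h2 := room_lt i
  have h3 : r * parF i ≤ parR i * parF i := Nat.mul_le_mul_right _ h1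
  have h4 : s * parF i ≤ parR i * parF i := Nat.mul_le_mul_right _ h1'
  omega

/-- Extending the stem. -/
theorem ext_len (p : Cond) (m : ℕ) :
    ∃ q : Cond, Ext q p ∧ m ≤ q.σ.length ∧ q.r = p.r ∧ q.B = p.B := by
  have h1 : Big parM (fun l => p.r * parF l) (fun α => α.length = max m p.σ.length) p.σ :=
    big_level _ (le_max_right _ _) (fun l hl => room_of p.room hl)
  obtain ⟨α, h2, h3, h4, h5⟩ := h1.exists_small p.small
  refine ⟨⟨α, p.r, p.B, h4 p.valid, p.room.trans (parR_mono h3.length_le), h5⟩, ⟨h3, fun _ h => h⟩,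
    ?_, rfl, rfl⟩
  show m ≤ α.length
  rw [h2]; exact le_max_left _ _

theorem count_mod (M q c : ℕ) : ((Finset.range M).filter (fun t => t % q = c)).card ≤ M / q + 1 := by
  have h : ((Finset.range M).filter (fun t => t % q = c)).card ≤ (Finset.range (M / q + 1)).card := by
    apply Finset.card_le_card_of_injOn (fun t => t / q)
    · intro t ht
      simp only [Finset.coe_filter, Finset.mem_range, Set.mem_ofPred_eq] at ht
      simp only [Finset.coe_range, Set.mem_Iio]
      exact Nat.lt_succ_of_le (Nat.div_le_div_right ht.1.le)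
    · intro t ht s hs hts
      simp only [Finset.coe_filter, Finset.mem_range, Set.mem_ofPred_eq] at ht hs
      simp only at hts
      rw [← Nat.div_add_mod t q, ← Nat.div_add_mod s q, ht.2, hs.2, hts]
  rwa [Finset.card_range] at h

theorem yv_snoc_lt {τ : List ℕ} {t k : ℕ} (h : k < parK τ.length) (hτ : 0 < τ.length) :
    yv (τ ++ [t]) k = yv τ k := by
  unfold yv
  rw [List.getElem?_append_left (lev_lt h hτ)]

theorem ed_small (σ : List ℕ) (u : ℕ → ℕ) :
    ¬ Big parM parF (fun ρ => ∃ k, parK σ.length ≤ k ∧ k < parK ρ.length ∧ yv ρ k = u k) σ := by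
  classical
  intro H
  have key : ∀ ρ, Big parM parF
      (fun ρ => ∃ k, parK σ.length ≤ k ∧ k < parK ρ.length ∧ yv ρ k = u k) ρ →
      σ.length ≤ ρ.length → ∃ k, parK σ.length ≤ k ∧ k < parK ρ.length ∧ yv ρ k = u k := by
    intro ρ h
    induction h with
    | leaf τ hτ => intro _; exact hτ
    | node τ D hD hc _ ih =>
      intro hlen
      by_contra hcon
      have h1 : D ⊆ (Finset.Ico (parK τ.length) (parK (τ.length + 1))).biUnion
          (fun k => (Finset.range (parM τ.length)).filter (fun t => t % 2 ^ k.factorial = u k)) := by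
        intro t ht
        obtain ⟨k, hk1, hk2, hk3⟩ := ih t ht (by simp; omega)
        rw [List.length_append, List.length_singleton] at hk2
        rcases Nat.lt_or_ge k (parK τ.length) with h2 | h2
        · exfalso
          apply hcon
          refine ⟨k, hk1, h2, ?_⟩
          rw [← hk3]
          symm
          apply yv_snoc_lt h2
          by_contra h3
          have h4 : τ.length = 0 := by omega
          have h5 : σ.length = 0 := by omega
          rw [h4] at h2
          rw [h5] at hk1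
          omega
        · rw [Finset.mem_biUnion]
          refine ⟨k, Finset.mem_Ico.2 ⟨h2, hk2⟩, Finset.mem_filter.2
            ⟨Finset.mem_range.2 (hD t ht), ?_⟩⟩
          rw [← hk3]
          unfold yv
          rw [lev_eq h2 hk2]
          simp
      have h2 := (Finset.card_le_card h1).trans Finset.card_biUnion_le
      have h3 : ∑ k ∈ Finset.Ico (parK τ.length) (parK (τ.length + 1)),
          ((Finset.range (parM τ.length)).filter (fun t => t % 2 ^ k.factorial = u k)).card ≤
          parF τ.length :=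
        (Finset.sum_le_sum (fun k _ => count_mod _ _ _)).trans (cost_le _)
      omega
  obtain ⟨k, hk1, hk2, -⟩ := key σ H le_rfl
  omega

/-- Making the generic function eventually different from `u`. -/
theorem ext_ed (p : Cond) (u : ℕ → ℕ) :
    ∃ q : Cond, Ext q p ∧ ∃ k0, ∀ ρ k, k0 ≤ k → k < parK ρ.length → yv ρ k = u k → q.B ρ := by
  obtain ⟨p1, h1, h2, h3, h4⟩ := ext_len p (p.r + 1)
  refine ⟨⟨p1.σ, p1.r + 1, fun ρ => p1.B ρ ∨
    ∃ k, parK p1.σ.length ≤ k ∧ k < parK ρ.length ∧ yv ρ k = u k, p1.valid, ?_, ?_⟩, ?_,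
    parK p1.σ.length, ?_⟩
  · rw [h3]; exact h2.trans (le_parR _)
  · intro H
    have h5 : Big parM (fun l => p1.r * parF l + parF l) (fun ρ => p1.B ρ ∨
        ∃ k, parK p1.σ.length ≤ k ∧ k < parK ρ.length ∧ yv ρ k = u k) p1.σ :=
      H.mono (fun _ h => h) (fun l _ => by rw [Nat.succ_mul])
    rcases h5.or (g := fun l => p1.r * parF l) (h := parF) with h6 | h6
    · exact p1.small h6
    · exact ed_small _ _ h6
  · exact ⟨h1.1, fun ρ h => Or.inl (h1.2 ρ h)⟩
  · intro ρ k hk1 hk2 hk3
    exact Or.inr ⟨k, hk1, hk2, hk3⟩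

/-- The main case distinction for a functional. -/
theorem ext_fun (p : Cond) (φ : List ℕ → ℕ → Option ℕ) (hφ : Primrec₂ φ) :
    ∃ q : Cond, Ext q p ∧
      ((∃ n, ∀ ρ v, v < 2 ^ (2 ^ n) → φ ρ n = some v → q.B ρ) ∨
      ∃ x : ℕ → ℕ, Computable x ∧ ∀ q', Ext q' q → ∀ m, ∃ q'', Ext q'' q' ∧
        ∃ n, m ≤ n ∧ φ q''.σ n = some (x n)) := by
  obtain ⟨p1, h1, h2, h3, h4⟩ := ext_len p (p.r + p.r)
  rw [← h3] at h2
  clear h3 h4
  suffices h : ∃ q : Cond, Ext q p1 ∧
      ((∃ n, ∀ ρ v, v < 2 ^ (2 ^ n) → φ ρ n = some v → q.B ρ) ∨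
      ∃ x : ℕ → ℕ, Computable x ∧ ∀ q', Ext q' q → ∀ m, ∃ q'', Ext q'' q' ∧
        ∃ n, m ≤ n ∧ φ q''.σ n = some (x n)) by
    obtain ⟨q, h5, h6⟩ := h
    exact ⟨q, h5.trans h1, h6⟩
  clear h1 p
  by_cases hcase : ∃ (τ : List ℕ) (n : ℕ), p1.σ <+: τ ∧ Valid parM τ ∧ n < parN τ.length ∧
      ¬ Big parM (fun l => p1.r * parF l) p1.B τ ∧
      ¬ Big parM (fun l => (τ.length * 2 ^ (2 ^ n)) * parF l)
        (fun ρ => ∃ v, v < 2 ^ (2 ^ n) ∧ φ ρ n = some v) τ
  · obtain ⟨τ, n, hτ1, hτ2, hn, hτ3, hτ4⟩ := hcase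
    have hle := hτ1.length_le
    refine ⟨⟨τ, p1.r + τ.length * 2 ^ (2 ^ n), fun ρ => p1.B ρ ∨
      ∃ v, v < 2 ^ (2 ^ n) ∧ φ ρ n = some v, hτ2, ?_, ?_⟩, ⟨hτ1, fun ρ h => Or.inl h⟩, Or.inl ⟨n, ?_⟩⟩
    · refine le_trans ?_ (parR_room _ _ hn)
      have : p1.r ≤ τ.length := by omega
      omega
    · intro H
      have h5 := H.mono (g' := fun l => p1.r * parF l + (τ.length * 2 ^ (2 ^ n)) * parF l)
        (fun _ h => h) (fun l _ => by rw [Nat.add_mul])
      rcases h5.or (g := fun l => p1.r * parF l)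
        (h := fun l => (τ.length * 2 ^ (2 ^ n)) * parF l) with h6 | h6
      · exact hτ3 h6
      · exact hτ4 h6
    · intro ρ v hv hρ
      exact Or.inr ⟨v, hv, hρ⟩
  · push Not at hcase
    -- every good node has a homogeneous big set
    have hgood : ∀ (τ : List ℕ), p1.σ <+: τ → Valid parM τ →
        ¬ Big parM (fun l => p1.r * parF l) p1.B τ → ∃ n v, node parM n = τ ∧
        Big parM (fun l => τ.length * parF l) (fun ρ => φ ρ n = some v) τ := by
      intro τ hτ1 hτ2 hτ3
      obtain ⟨n, hn, hnode⟩ := exists_node parM_pos hτ2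
      rw [← parN_eq] at hn
      have h5 := hcase τ n hτ1 hτ2 hn hτ3
      have h6 : Big parM (fun l => 2 ^ (2 ^ n) * (τ.length * parF l))
          (fun ρ => ∃ v, v < 2 ^ (2 ^ n) ∧ φ ρ n = some v) τ :=
        h5.mono (fun _ h => h) (fun l _ => by apply le_of_eq; ring)
      obtain ⟨v, -, h7⟩ := h6.pigeon (g := fun l => τ.length * parF l)
        (Q := fun v ρ => φ ρ n = some v)
      exact ⟨n, v, hnode, h7⟩
    have hgM : ∀ l, p1.σ.length ≤ l → (parM l - 1 - p1.r * parF l) + p1.r * parF l + 1 = parM l := by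
      intro l hl
      have := room_of p1.room hl
      omega
    have H : ∀ i, p1.σ.length ≤ i → Big parM (fun l => parM l - 1 - p1.r * parF l)
        (fun τ => τ.length = i ∧ ∃ n v, node parM n = τ ∧
          Big parM (fun l => i * parF l) (fun ρ => φ ρ n = some v) τ) p1.σ := by
      intro i hi
      have h5 : ¬ Big parM (fun l => p1.r * parF l) (fun τ => p1.σ <+: τ ∧ Valid parM τ ∧
          τ.length = i ∧ ¬ (∃ n v, node parM n = τ ∧
          Big parM (fun l => i * parF l) (fun ρ => φ ρ n = some v) τ)) p1.σ := by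
        intro h6
        apply p1.small
        refine h6.trans ?_
        rintro α - ⟨h7, h8, h9, h10⟩
        by_contra hcon
        apply h10
        obtain ⟨n, v, h11, h12⟩ := hgood α h7 h8 hcon
        rw [h9] at h12
        exact ⟨n, v, h11, h12⟩
      have h6 := big_compl (g := fun l => parM l - 1 - p1.r * parF l) i hi
        (fun l hl => (hgM l hl).le) h5
      refine h6.restrict.mono ?_ (fun _ _ => le_rfl)
      rintro τ ⟨⟨h7, h8⟩, h9, h10⟩
      refine ⟨h7, ?_⟩
      by_contra hcon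
      exact h8 ⟨h9, h10 p1.valid, h7, hcon⟩
    obtain ⟨x, hx, hbig⟩ := exists_comp φ hφ p1.σ p1.r p1.σ.length H
    set D : ℕ → List ℕ → Prop := fun i τ => τ.length = i ∧ ∃ n, node parM n = τ ∧
      Big parM (fun l => i * parF l) (fun ρ => φ ρ n = some (x n)) τ with hD
    have hV : ¬ Big parM (fun l => p1.r * parF l)
        (fun ρ => ∀ᶠ i in atTop, ¬ Big parM (fun l => parM l - 1 - p1.r * parF l) (D i) ρ) p1.σ := by
      intro h5
      have h6 := big_limit (g := fun l => parM l - 1 - p1.r * parF l) (D := D)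
        (fun i α h => h.1) (fun l hl => (hgM l hl).ge) h5
      obtain ⟨i, hi1, hi2⟩ := (h6.and (eventually_ge_atTop p1.σ.length)).exists
      exact hi1 (hbig i hi2)
    refine ⟨⟨p1.σ, p1.r + p1.r, fun ρ => p1.B ρ ∨
      ∀ᶠ i in atTop, ¬ Big parM (fun l => parM l - 1 - p1.r * parF l) (D i) ρ, p1.valid, ?_, ?_⟩,
      ⟨List.prefix_rfl, fun ρ h => Or.inl h⟩, Or.inr ⟨x, hx, ?_⟩⟩
    · exact h2.trans (le_parR _)
    · intro H5
      have h5 := H5.mono (g' := fun l => p1.r * parF l + p1.r * parF l)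
        (fun _ h => h) (fun l _ => by rw [Nat.add_mul])
      rcases h5.or (g := fun l => p1.r * parF l) (h := fun l => p1.r * parF l) with h6 | h6
      · exact p1.small h6
      · exact hV h6
    · intro q' hq' m
      have h5 : ∃ᶠ i in atTop,
          Big parM (fun l => parM l - 1 - p1.r * parF l) (D i) q'.σ := by
        rw [Filter.Frequently]
        intro h6
        exact q'.not_mem (hq'.2 _ (Or.inr h6))
      obtain ⟨i, hi1, hi2⟩ := (h5.and_eventually
        (eventually_ge_atTop (max m q'.r))).exists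
      have hlen : p1.σ.length ≤ q'.σ.length := hq'.1.length_le
      have h6 : Big parM (fun l => q'.r * parF l) (D i) q'.σ := by
        refine hi1.mono (fun _ h => h) (fun l hl => ?_)
        have := room_of2 (p1.room.trans (parR_mono hlen)) q'.room hl
        omega
      obtain ⟨τ, ⟨h7, n, h8, h9⟩, h10, h11, h12⟩ := h6.exists_small q'.small
      have h13 : Big parM (fun l => q'.r * parF l) (fun ρ => φ ρ n = some (x n)) τ :=
        h9.mono (fun _ h => h) (fun l _ => Nat.mul_le_mul_right _ ((le_max_right _ _).trans hi2))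
      obtain ⟨ρ, h14, h15, h16, h17⟩ := h13.exists_small h12
      refine ⟨⟨ρ, q'.r, q'.B, h16 (h11 q'.valid), q'.room.trans (parR_mono ?_), h17⟩,
        ⟨h10.trans h15, fun _ h => h⟩, n, ?_, h14⟩
      · exact (h10.trans h15).length_le
      · have h18 := node_length_le (M := parM) n
        rw [h8, h7] at h18
        exact ((le_max_left _ _).trans hi2).trans h18

end Pool.Agent.H99.OF
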