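import Pool.Agent.H99.OF.Cond

/-! # The generic function -/

namespace Pool.Agent.H99.OF

open Filter

instance countable_computable (α σ : Type) [Primcodable α] [Primcodable σ] :
    Countable {f : α → σ // Computable f} := by
  have h : ∀ f : {f : α → σ // Computable f}, ∃ c : Nat.Partrec.Code, c.eval =
      fun n => Part.bind (Encodable.decode (α := α) n) fun a =>
        (Part.some (f.1 a)).map Encodable.encode := by
    intro f
    have h1 : Nat.Partrec (fun n => Part.bind (Encodable.decode (α := α) n) fun a =>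
        (Part.some (f.1 a)).map Encodable.encode) := f.2.partrec
    exact Nat.Partrec.Code.exists_code.1 h1
  choose c hc using h
  have hinj : Function.Injective c := by
    intro f g hfg
    apply Subtype.ext
    funext a
    have h1 := hc f
    rw [hfg, hc g] at h1
    have h2 := congrFun h1 (Encodable.encode a)
    simpa using h2.symm
  exact hinj.countable

instance countable_primrec (α β σ : Type) [Primcodable α] [Primcodable β] [Primcodable σ] :
    Countable {f : α → β → σ // Primrec₂ f} := by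
  have hinj : Function.Injective (fun f : {f : α → β → σ // Primrec₂ f} =>
      (⟨fun p => f.1 p.1 p.2, (show Primrec (fun p : α × β => f.1 p.1 p.2) from f.2).to_comp⟩ :
        {f : α × β → σ // Computable f})) := by
    intro f g hfg
    apply Subtype.ext
    funext a b
    have h1 := congrArg Subtype.val hfg
    exact congrFun h1 (a, b)
  exact hinj.countable

/-- Meeting countably many dense sets. -/
theorem exists_generic {ι : Type} [Countable ι] [Nonempty ι] (E : ι → Cond → Prop)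
    (hE : ∀ i p, ∃ q, Ext q p ∧ E i q) (p0 : Cond) :
    ∃ P : ℕ → Cond, (∀ j k, j ≤ k → Ext (P k) (P j)) ∧ ∀ i, ∃ k, E i (P k) := by
  obtain ⟨e, he⟩ := exists_surjective_nat ι
  choose! nx hnx1 hnx2 using hE
  let P : ℕ → Cond := fun k => Nat.rec p0 (fun k q => nx (e k) q) k
  have hP : ∀ k, P (k + 1) = nx (e k) (P k) := fun k => rfl
  refine ⟨P, ?_, ?_⟩
  · intro j k h
    induction h with
    | refl => exact Ext.refl _
    | @step k _ ih => exact Ext.trans (by rw [hP]; exact hnx1 _ _) ih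
  · intro i
    obtain ⟨k, rfl⟩ := he i
    exact ⟨k + 1, by rw [hP]; exact hnx2 _ _⟩

/-- The trivial condition. -/
def Cond.one : Cond where
  σ := []
  r := 0
  B := fun _ => False
  valid := Valid.nil
  room := Nat.zero_le _
  small := not_big_false (fun _ h => h)

theorem main : ∃ G : ℕ → ℕ,
    (∀ u : ℕ → ℕ, Computable u → ∀ᶠ k in atTop, G (lev k) % 2 ^ k.factorial ≠ u k) ∧
    ∀ (φ : List ℕ → ℕ → Option ℕ) (z : ℕ → ℕ), IsFun φ → (∀ n, z n < 2 ^ (2 ^ n)) →
      Gives G φ (fun n => Part.some (z n)) →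
      ∃ x : ℕ → ℕ, Computable x ∧ ∃ᶠ n in atTop, x n = z n := by
  classical
  let CU := {u : ℕ → ℕ // Computable u}
  let CF := {φ : List ℕ → ℕ → Option ℕ // Primrec₂ φ}
  let ι := ℕ ⊕ CU ⊕ CF ⊕ (CF × CU × ℕ)
  let E : ι → Cond → Prop := fun i q =>
    match i with
    | Sum.inl m => m ≤ q.σ.length
    | Sum.inr (Sum.inl u) =>
        ∃ k0, ∀ ρ k, k0 ≤ k → k < parK ρ.length → yv ρ k = u.1 k → q.B ρ
    | Sum.inr (Sum.inr (Sum.inl φ)) =>
        (∃ n, ∀ ρ v, v < 2 ^ (2 ^ n) → φ.1 ρ n = some v → q.B ρ) ∨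
        ∃ x : ℕ → ℕ, Computable x ∧ ∀ q', Ext q' q → ∀ m, ∃ q'', Ext q'' q' ∧
          ∃ n, m ≤ n ∧ φ.1 q''.σ n = some (x n)
    | Sum.inr (Sum.inr (Sum.inr (φ, x, m))) =>
        (∃ n, m ≤ n ∧ φ.1 q.σ n = some (x.1 n)) ∨
        ¬ ∃ q'', Ext q'' q ∧ ∃ n, m ≤ n ∧ φ.1 q''.σ n = some (x.1 n)
  have hE : ∀ i p, ∃ q, Ext q p ∧ E i q := by
    rintro (m | u | φ | ⟨φ, x, m⟩) p
    · obtain ⟨q, h1, h2, -, -⟩ := ext_len p m
      exact ⟨q, h1, h2⟩
    · exact ext_ed p u.1
    · exact ext_fun p φ.1 φ.2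
    · by_cases h : ∃ q'', Ext q'' p ∧ ∃ n, m ≤ n ∧ φ.1 q''.σ n = some (x.1 n)
      · obtain ⟨q, h1, h2⟩ := h
        exact ⟨q, h1, Or.inl h2⟩
      · exact ⟨p, Ext.refl p, Or.inr h⟩
  have : Nonempty ι := ⟨Sum.inl 0⟩
  obtain ⟨P, hP, hmeet⟩ := exists_generic E hE Cond.one
  -- the lengths tend to infinity
  have hlen : ∀ m, ∃ k, m ≤ (P k).σ.length := fun m => hmeet (Sum.inl m)
  have hlen' : ∀ m k, ∃ j, k ≤ j ∧ m ≤ (P j).σ.length := by
    intro m k
    obtain ⟨j, hj⟩ := hlen m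
    exact ⟨max j k, le_max_right _ _, hj.trans (hP j _ (le_max_left _ _)).1.length_le⟩
  choose kk hkk using fun j => hlen (j + 1)
  let G : ℕ → ℕ := fun j => ((P (kk j)).σ[j]?).getD 0
  have hG : ∀ k j, j < (P k).σ.length → (P k).σ[j]? = some (G j) := by
    intro k j hj
    have h1 : j < (P (kk j)).σ.length := hkk j
    have h2 : (P (kk j)).σ[j]? = (P k).σ[j]? := by
      rcases Nat.le_total k (kk j) with h | h
      · have h3 := List.prefix_iff_getElem?.1 (hP _ _ h).1 j hj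
        rw [h3, List.getElem?_eq_getElem hj]
      · have h3 := List.prefix_iff_getElem?.1 (hP _ _ h).1 j h1
        rw [h3, List.getElem?_eq_getElem h1]
    simp only [G]
    rw [h2, List.getElem?_eq_getElem hj]
    rfl
  have hini : ∀ k, ini G (P k).σ.length = (P k).σ := by
    intro k
    apply List.ext_getElem?
    intro j
    by_cases hj : j < (P k).σ.length
    · rw [hG k j hj]
      simp [ini, hj]
    · rw [List.getElem?_eq_none (by simp [ini]; omega), List.getElem?_eq_none (by omega)]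
  refine ⟨G, ?_, ?_⟩
  · intro u hu
    obtain ⟨k, k0, hk0⟩ : ∃ k, ∃ k0, ∀ ρ k', k0 ≤ k' → k' < parK ρ.length → yv ρ k' = u k' →
        (P k).B ρ := hmeet (Sum.inr (Sum.inl ⟨u, hu⟩))
    filter_upwards [eventually_ge_atTop k0] with k' hk' heq
    obtain ⟨j, hj1, hj2⟩ := hlen' (k' + 1) k
    have h1 : k' < parK (P j).σ.length := by
      have h2 : k' + 1 ≤ parK (k' + 1) := parK_strictMono.id_le _
      have h3 := parK_strictMono.monotone hj2
      omega
    have h2 : lev k' < (P j).σ.length := lev_lt h1 (by omega)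
    have h3 : yv (P j).σ k' = u k' := by
      unfold yv
      rw [hG j _ h2]
      exact heq
    exact (P j).not_mem ((hP k j hj1).2 _ (hk0 _ _ hk' h1 h3))
  · intro φ z hφ hz hgives
    have hval : ∀ k n, ∃ j, k ≤ j ∧ φ (P j).σ n = some (z n) := by
      intro k n
      obtain ⟨l, hl⟩ := (hgives n (z n)).1 (Part.mem_some _)
      obtain ⟨j, hj1, hj2⟩ := hlen' l k
      refine ⟨j, hj1, ?_⟩
      rw [← hini j]
      exact hφ.mono _ _ _ _ (ini_prefix G hj2) hl
    have hval2 : ∀ k n v, φ (P k).σ n = some v → v = z n := by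
      intro k n v h
      have h1 := (hgives n v).2 ⟨(P k).σ.length, by rw [hini k]; exact h⟩
      simpa using h1
    obtain ⟨k, hk⟩ := hmeet (Sum.inr (Sum.inr (Sum.inl ⟨φ, hφ.prim⟩)))
    rcases hk with ⟨n, hn⟩ | ⟨x, hx, hdense⟩
    · exfalso
      obtain ⟨j, hj1, hj2⟩ := hval k n
      exact (P j).not_mem ((hP k j hj1).2 _ (hn _ _ (hz n) hj2))
    · refine ⟨x, hx, ?_⟩
      rw [frequently_atTop]
      intro m
      obtain ⟨k2, hk2⟩ : ∃ k2, (∃ n, m ≤ n ∧ φ (P k2).σ n = some (x n)) ∨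
          ¬ ∃ q'', Ext q'' (P k2) ∧ ∃ n, m ≤ n ∧ φ q''.σ n = some (x n) :=
        hmeet (Sum.inr (Sum.inr (Sum.inr (⟨φ, hφ.prim⟩, ⟨x, hx⟩, m))))
      rcases hk2 with ⟨n, hn1, hn2⟩ | hno
      · exact ⟨n, hn1, hval2 _ _ _ hn2⟩
      · exfalso
        apply hno
        obtain ⟨q'', h1, h2⟩ := hdense (P (max k k2)) (hP _ _ (le_max_left _ _)) m
        exact ⟨q'', h1.trans (hP _ _ (le_max_right _ _)), h2⟩

end Pool.Agent.H99.OF
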