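import Pool.Agent.H99.OF.Big

/-! # An economical enumeration of the valid nodes -/

namespace Pool.Agent.H99.OF

/-- The valid nodes of length `i`. -/
def Lev (M : ℕ → ℕ) : ℕ → List (List ℕ)
  | 0 => [[]]
  | i + 1 => (Lev M i).flatMap (fun τ => (List.range (M i)).map (fun t => τ ++ [t]))

/-- The valid nodes of length at most `i`. -/
def AllN (M : ℕ → ℕ) : ℕ → List (List ℕ)
  | 0 => [[]]
  | i + 1 => AllN M i ++ Lev M (i + 1)

/-- The enumeration of the valid nodes. -/
def node (M : ℕ → ℕ) (n : ℕ) : List ℕ := ((AllN M n)[n]?).getD []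

variable {M : ℕ → ℕ}

theorem mem_lev (i : ℕ) (ρ : List ℕ) : ρ ∈ Lev M i ↔ ρ.length = i ∧ Valid M ρ := by
  induction i generalizing ρ with
  | zero =>
    simp only [Lev, List.mem_singleton]
    constructor
    · rintro rfl; exact ⟨rfl, Valid.nil⟩
    · rintro ⟨h, _⟩; exact List.length_eq_zero_iff.1 h
  | succ i ih =>
    simp only [Lev, List.mem_flatMap, List.mem_map, List.mem_range]
    constructor
    · rintro ⟨τ, hτ, t, ht, rfl⟩
      rw [ih] at hτ
      refine ⟨by simp [hτ.1], hτ.2.snoc (by rw [hτ.1]; exact ht)⟩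
    · rintro ⟨hlen, hv⟩
      rcases List.eq_nil_or_concat ρ with rfl | ⟨τ, t, rfl⟩
      · simp at hlen
      · simp only [List.concat_eq_append] at hlen hv ⊢
        have hτ : τ.length = i := by simpa using hlen
        refine ⟨τ, (ih τ).2 ⟨hτ, ?_⟩, t, ?_, rfl⟩
        · intro j s hs
          apply hv j s
          have hj : j < τ.length := (List.getElem?_eq_some_iff.1 hs).1
          rw [List.getElem?_append_left hj]
          exact hs
        · have := hv i t (by rw [← hτ]; simp)
          exact this

theorem lev_length (i : ℕ) : (Lev M i).length = ∏ j ∈ Finset.range i, M j := by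
  induction i with
  | zero => simp [Lev]
  | succ i ih =>
    rw [Finset.prod_range_succ, ← ih]
    simp [Lev, List.length_flatMap]

theorem allN_length (i : ℕ) :
    (AllN M i).length = ∑ l ∈ Finset.range (i + 1), ∏ j ∈ Finset.range l, M j := by
  induction i with
  | zero => simp [AllN]
  | succ i ih =>
    rw [Finset.sum_range_succ, ← ih, ← lev_length]
    simp [AllN]

theorem allN_prefix {i j : ℕ} (h : i ≤ j) : AllN M i <+: AllN M j := by
  induction h with
  | refl => exact List.prefix_rfl
  | step _ ih => exact ih.trans (List.prefix_append _ _)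

theorem mem_allN {i : ℕ} {ρ : List ℕ} : ρ ∈ AllN M i ↔ ρ.length ≤ i ∧ Valid M ρ := by
  induction i with
  | zero =>
    simp only [AllN, List.mem_singleton]
    constructor
    · rintro rfl; exact ⟨le_rfl, Valid.nil⟩
    · rintro ⟨h, _⟩; exact List.length_eq_zero_iff.1 (by omega)
  | succ i ih =>
    simp only [AllN, List.mem_append, ih, mem_lev]
    constructor
    · rintro (⟨h1, h2⟩ | ⟨h1, h2⟩)
      · exact ⟨by omega, h2⟩
      · exact ⟨by omega, h2⟩
    · rintro ⟨h1, h2⟩
      rcases Nat.lt_or_ge i ρ.length with h | h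
      · exact Or.inr ⟨by omega, h2⟩
      · exact Or.inl ⟨h, h2⟩

theorem node_length_le (n : ℕ) : (node M n).length ≤ n := by
  unfold node
  rcases h : (AllN M n)[n]? with _ | ρ
  · simp
  · simp only [Option.getD_some]
    exact (mem_allN.1 (List.mem_of_getElem? h)).1

/-- Every valid node `ρ` is `node n` for some `n` below the number of valid nodes of length
at most `|ρ|`, if the branching numbers are positive. -/
theorem exists_node (hM : ∀ i, 0 < M i) {ρ : List ℕ} (hρ : Valid M ρ) :
    ∃ n, n < (AllN M ρ.length).length ∧ node M n = ρ := by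
  have h1 : ρ ∈ AllN M ρ.length := mem_allN.2 ⟨le_rfl, hρ⟩
  obtain ⟨n, hn, he⟩ := List.mem_iff_getElem.1 h1
  refine ⟨n, hn, ?_⟩
  have hlen : ∀ i, i < (AllN M i).length := by
    intro i
    rw [allN_length]
    calc i < i + 1 := by omega
      _ = ∑ l ∈ Finset.range (i + 1), 1 := by simp
      _ ≤ _ := Finset.sum_le_sum (fun l _ => Nat.one_le_iff_ne_zero.2
          (Finset.prod_ne_zero_iff.2 (fun j _ => (hM j).ne')))
  unfold node
  have h2 : (AllN M n)[n]? = some ρ := by
    rcases Nat.le_total ρ.length n with h | h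
    · have := List.prefix_iff_getElem?.1 (allN_prefix (M := M) h) n hn
      rw [this, he]
    · have := List.prefix_iff_getElem?.1 (allN_prefix (M := M) h) n (hlen n)
      rw [List.getElem?_eq_getElem hn] at this
      rw [List.getElem?_eq_getElem (hlen n), ← this, he]
  rw [h2]; rfl

theorem primrec_lev (hM : Primrec M) : Primrec (Lev M) := by
  have h1 : Primrec₂ (fun (i : ℕ) (L : List (List ℕ)) =>
      L.flatMap (fun τ => (List.range (M i)).map (fun t => τ ++ [t]))) := by
    refine Primrec.list_flatMap Primrec.snd ?_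
    refine Primrec.list_map (Primrec.list_range.comp (hM.comp (Primrec.fst.comp Primrec.fst))) ?_
    exact Primrec.list_concat.comp (Primrec.snd.comp Primrec.fst) Primrec.snd
  refine (Primrec.nat_rec₁ [[]] h1).of_eq (fun i => ?_)
  induction i with
  | zero => rfl
  | succ i ih => simp only [Lev, ← ih]

theorem primrec_allN (hM : Primrec M) : Primrec (AllN M) := by
  have h1 : Primrec₂ (fun (i : ℕ) (L : List (List ℕ)) => L ++ Lev M (i + 1)) :=
    Primrec.list_append.comp Primrec.snd ((primrec_lev hM).comp (Primrec.succ.comp Primrec.fst))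
  refine (Primrec.nat_rec₁ [[]] h1).of_eq (fun i => ?_)
  induction i with
  | zero => rfl
  | succ i ih => simp only [AllN, ← ih]

theorem primrec_node (hM : Primrec M) : Primrec (node M) := by
  unfold node
  exact Primrec.option_getD.comp
    (Primrec.list_getElem?.comp (primrec_allN hM) Primrec.id) (Primrec.const [])

end Pool.Agent.H99.OF
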