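import Pool.Agent.H99.OF.Nodes

/-! # The parameters of the tree -/

namespace Pool.Agent.H99.OF

theorem primrec_pow : Primrec₂ ((· ^ ·) : ℕ → ℕ → ℕ) :=
  Primrec₂.unpaired'.1 Nat.Primrec.pow

/-- The state `(K, P, N)`. -/
def step (i : ℕ) (s : ℕ × ℕ × ℕ) : ℕ × ℕ × ℕ :=
  let R := (2 * i + 1) * 2 ^ (2 ^ s.2.2)
  let K' := 2 * 4 ^ (s.1 + s.2.2 + 8 * s.2.1 * R + 1)
  let P' := s.2.1 * (8 * R * K')
  (K', P', s.2.2 + P')

def st (i : ℕ) : ℕ × ℕ × ℕ := Nat.rec (4, 1, 1) step i

def parK (i : ℕ) : ℕ := (st i).1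
def parP (i : ℕ) : ℕ := (st i).2.1
def parN (i : ℕ) : ℕ := (st i).2.2
def parR (i : ℕ) : ℕ := (2 * i + 1) * 2 ^ (2 ^ parN i)
def parM (i : ℕ) : ℕ := 8 * parR i * parK (i + 1)
def parF (i : ℕ) : ℕ := 3 * parK (i + 1)

theorem primrec_st : Primrec st := by
  have hi : Primrec (fun p : ℕ × ℕ × ℕ × ℕ => p.1) := Primrec.fst
  have hK : Primrec (fun p : ℕ × ℕ × ℕ × ℕ => p.2.1) := Primrec.fst.comp Primrec.snd
  have hP : Primrec (fun p : ℕ × ℕ × ℕ × ℕ => p.2.2.1) :=
    Primrec.fst.comp (Primrec.snd.comp Primrec.snd)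
  have hN : Primrec (fun p : ℕ × ℕ × ℕ × ℕ => p.2.2.2) :=
    Primrec.snd.comp (Primrec.snd.comp Primrec.snd)
  have c (n : ℕ) : Primrec (fun _ : ℕ × ℕ × ℕ × ℕ => n) := Primrec.const n
  have hR : Primrec (fun p : ℕ × ℕ × ℕ × ℕ => (2 * p.1 + 1) * 2 ^ (2 ^ p.2.2.2)) :=
    Primrec.nat_mul.comp (Primrec.nat_add.comp (Primrec.nat_mul.comp (c 2) hi) (c 1))
      (primrec_pow.comp (c 2) (primrec_pow.comp (c 2) hN))
  have hK' : Primrec (fun p : ℕ × ℕ × ℕ × ℕ => 2 * 4 ^ (p.2.1 + p.2.2.2 +
      8 * p.2.2.1 * ((2 * p.1 + 1) * 2 ^ (2 ^ p.2.2.2)) + 1)) :=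
    Primrec.nat_mul.comp (c 2) (primrec_pow.comp (c 4) (Primrec.nat_add.comp
      (Primrec.nat_add.comp (Primrec.nat_add.comp hK hN)
        (Primrec.nat_mul.comp (Primrec.nat_mul.comp (c 8) hP) hR)) (c 1)))
  have hP' : Primrec (fun p : ℕ × ℕ × ℕ × ℕ => p.2.2.1 *
      (8 * ((2 * p.1 + 1) * 2 ^ (2 ^ p.2.2.2)) * (2 * 4 ^ (p.2.1 + p.2.2.2 +
      8 * p.2.2.1 * ((2 * p.1 + 1) * 2 ^ (2 ^ p.2.2.2)) + 1)))) :=
    Primrec.nat_mul.comp hP (Primrec.nat_mul.comp (Primrec.nat_mul.comp (c 8) hR) hK')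
  have h1 : Primrec₂ step := hK'.pair (hP'.pair (Primrec.nat_add.comp hN hP'))
  exact Primrec.nat_rec₁ (4, 1, 1) h1

theorem primrec_parK : Primrec parK := Primrec.fst.comp primrec_st
theorem primrec_parN : Primrec parN := Primrec.snd.comp (Primrec.snd.comp primrec_st)
theorem primrec_parR : Primrec parR :=
  Primrec.nat_mul.comp (Primrec.nat_add.comp (Primrec.nat_mul.comp (Primrec.const 2) Primrec.id)
    (Primrec.const 1)) (primrec_pow.comp (Primrec.const 2)
    (primrec_pow.comp (Primrec.const 2) primrec_parN))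
theorem primrec_parM : Primrec parM :=
  Primrec.nat_mul.comp (Primrec.nat_mul.comp (Primrec.const 8) primrec_parR)
    (primrec_parK.comp Primrec.succ)
theorem primrec_parF : Primrec parF :=
  Primrec.nat_mul.comp (Primrec.const 3) (primrec_parK.comp Primrec.succ)

theorem parK_succ (i : ℕ) : parK (i + 1) =
    2 * 4 ^ (parK i + parN i + 8 * parP i * parR i + 1) := rfl
theorem parP_succ (i : ℕ) : parP (i + 1) = parP i * parM i := rfl
theorem parN_succ (i : ℕ) : parN (i + 1) = parN i + parP (i + 1) := rfl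
theorem parK_zero : parK 0 = 4 := rfl
theorem parP_zero : parP 0 = 1 := rfl
theorem parN_zero : parN 0 = 1 := rfl

theorem parK_lt_succ (i : ℕ) : parK i < parK (i + 1) := by
  rw [parK_succ]
  have h1 : parK i + parN i + 8 * parP i * parR i + 1 <
      4 ^ (parK i + parN i + 8 * parP i * parR i + 1) := Nat.lt_pow_self (by norm_num)
  omega

theorem parK_strictMono : StrictMono parK := strictMono_nat_of_lt_succ parK_lt_succ

theorem parK_pos (i : ℕ) : 0 < parK i := by
  have := parK_strictMono.monotone (Nat.zero_le i)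
  rw [parK_zero] at this
  omega

theorem parR_pos (i : ℕ) : 0 < parR i := by unfold parR; positivity

theorem parM_pos (i : ℕ) : 0 < parM i := by
  unfold parM
  have h1 := parR_pos i
  have h2 := parK_pos (i + 1)
  positivity

theorem parP_eq (i : ℕ) : parP i = ∏ j ∈ Finset.range i, parM j := by
  induction i with
  | zero => rfl
  | succ i ih => rw [Finset.prod_range_succ, ← ih, parP_succ]

theorem parN_eq (i : ℕ) : parN i = (AllN parM i).length := by
  rw [allN_length]
  induction i with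
  | zero => rfl
  | succ i ih => rw [Finset.sum_range_succ, ← ih, parN_succ, parP_eq]

theorem parP_pos (i : ℕ) : 0 < parP i := by
  rw [parP_eq]
  exact Finset.prod_pos (fun j _ => parM_pos j)

theorem parN_lt_succ (i : ℕ) : parN i < parN (i + 1) := by
  rw [parN_succ]
  have := parP_pos (i + 1)
  omega

theorem parN_strictMono : StrictMono parN := strictMono_nat_of_lt_succ parN_lt_succ

theorem lt_parN (i : ℕ) : i < parN i := by
  induction i with
  | zero => rw [parN_zero]; norm_num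
  | succ i ih => have := parN_lt_succ i; omega

theorem parR_mono : Monotone parR := by
  intro i j h
  unfold parR
  have h1 : parN i ≤ parN j := parN_strictMono.monotone h
  exact Nat.mul_le_mul (by omega) (Nat.pow_le_pow_right (by norm_num)
    (Nat.pow_le_pow_right (by norm_num) h1))

/-- There is room for `i` old units and `i` copies of `2 ^ 2 ^ n` units at level `i`. -/
theorem parR_room (i n : ℕ) (hn : n < parN i) : i + i * 2 ^ (2 ^ n) ≤ parR i := by
  unfold parR
  have h1 : 2 ^ (2 ^ n) ≤ 2 ^ (2 ^ parN i) := Nat.pow_le_pow_right (by norm_num)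
    (Nat.pow_le_pow_right (by norm_num) hn.le)
  have h2 : 1 ≤ 2 ^ (2 ^ parN i) := Nat.one_le_two_pow
  nlinarith

theorem le_parR (i : ℕ) : i ≤ parR i :=
  le_trans (Nat.le_add_right _ _) (parR_room i 0 (by have := lt_parN i; omega))

theorem room_lt (i : ℕ) : 2 * (parR i * parF i) < parM i := by
  unfold parM parF
  have h1 := parR_pos i
  have h2 := parK_pos (i + 1)
  have h3 : 0 < parR i * parK (i + 1) := Nat.mul_pos h1 h2
  nlinarith

theorem fact_ge (D : ℕ) : 2 ^ (D * (2 * 4 ^ D)) ≤ (2 * 4 ^ D).factorial := by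
  have h1 := Nat.factorial_mul_pow_le_factorial (m := 4 ^ D) (n := 4 ^ D)
  have h2 : 4 ^ D + 4 ^ D = 2 * 4 ^ D := by ring
  rw [h2] at h1
  refine le_trans ?_ h1
  have h3 : 2 ^ (D * (2 * 4 ^ D)) = (4 ^ D) ^ (4 ^ D) := by
    generalize hE : (4 : ℕ) ^ D = E
    have h4 : E = 2 ^ (2 * D) := by rw [← hE, pow_mul]; norm_num
    calc 2 ^ (D * (2 * E)) = 2 ^ (2 * D * E) := by congr 1; ring
      _ = (2 ^ (2 * D)) ^ E := pow_mul _ _ _
      _ = E ^ E := by rw [← h4]
  rw [h3]
  calc (4 ^ D) ^ (4 ^ D) ≤ (4 ^ D + 1) ^ (4 ^ D) := Nat.pow_le_pow_left (by omega) _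
    _ = 1 * (4 ^ D + 1) ^ (4 ^ D) := by ring
    _ ≤ _ := Nat.mul_le_mul_right _ (Nat.factorial_pos _)

theorem R_le_fact (i : ℕ) : 8 * parR i ≤ 2 ^ (parK i).factorial := by
  rcases i with _ | i
  · unfold parR
    rw [parN_zero, parK_zero]
    norm_num [Nat.factorial]
  · unfold parR
    set C := parK i + parN i + 8 * parP i * parR i with hC
    have hK : parK (i + 1) = 2 * 4 ^ (C + 1) := parK_succ i
    have h1 : parN (i + 1) ≤ C * parK (i + 1) := by
      rw [parN_succ, parP_succ]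
      unfold parM
      have h2 := parK_pos (i + 1)
      have h3 : parN i ≤ parN i * parK (i + 1) := Nat.le_mul_of_pos_right _ h2
      have h4 : (parN i + 8 * parP i * parR i) * parK (i + 1) ≤ C * parK (i + 1) :=
        Nat.mul_le_mul_right _ (by omega)
      calc parN i + parP i * (8 * parR i * parK (i + 1))
          ≤ parN i * parK (i + 1) + parP i * (8 * parR i * parK (i + 1)) := by omega
        _ = (parN i + 8 * parP i * parR i) * parK (i + 1) := by ring
        _ ≤ _ := h4
    have h2 : 2 ^ ((C + 1) * parK (i + 1)) ≤ (parK (i + 1)).factorial := by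
      rw [hK]; exact fact_ge (C + 1)
    have h3 : 2 ^ parN (i + 1) ≤ 2 ^ (C * parK (i + 1)) := Nat.pow_le_pow_right (by norm_num) h1
    have h4 : 2 * 2 ^ (C * parK (i + 1)) ≤ 2 ^ ((C + 1) * parK (i + 1)) := by
      rw [← pow_succ']
      apply Nat.pow_le_pow_right (by norm_num)
      have := parK_pos (i + 1)
      rw [Nat.succ_mul]
      omega
    have h5 : 2 * i + 8 ≤ 2 ^ (C * parK (i + 1)) := by
      have h6 : C * parK (i + 1) < 2 ^ (C * parK (i + 1)) := Nat.lt_pow_self (by norm_num)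
      have h7 : i < parN i := lt_parN i
      have h8 : 8 ≤ parK (i + 1) := by
        rw [hK]
        have : 4 ^ 1 ≤ 4 ^ (C + 1) := Nat.pow_le_pow_right (by norm_num) (by omega)
        omega
      have h9 : (i + 1) * 8 ≤ C * parK (i + 1) := Nat.mul_le_mul (by omega) h8
      omega
    have h6 : 2 * i + 8 + 2 ^ parN (i + 1) ≤ (parK (i + 1)).factorial := by omega
    calc 8 * ((2 * (i + 1) + 1) * 2 ^ (2 ^ parN (i + 1)))
        ≤ 2 ^ (2 * i + 8) * 2 ^ (2 ^ parN (i + 1)) := by
          rw [← mul_assoc]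
          apply Nat.mul_le_mul_right
          have : 2 * i + 3 < 2 ^ (2 * i + 3) := Nat.lt_pow_self (by norm_num)
          have e : 2 ^ (2 * i + 8) = 32 * 2 ^ (2 * i + 3) := by
            rw [show 2 * i + 8 = 5 + (2 * i + 3) by ring, pow_add]; norm_num
          rw [e]
          omega
      _ = 2 ^ (2 * i + 8 + 2 ^ parN (i + 1)) := (pow_add _ _ _).symm
      _ ≤ _ := Nat.pow_le_pow_right (by norm_num) h6

theorem fact_add_le {K k : ℕ} (hK : 0 < K) (h : K ≤ k) :
    K.factorial + (k - K) ≤ k.factorial := by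
  induction h with
  | refl => simp
  | @step k h ih =>
    rw [Nat.factorial_succ]
    have h1 : 0 < k.factorial := Nat.factorial_pos _
    have h2 : K ≤ k := h
    have h3 : 1 ≤ k * k.factorial := Nat.mul_pos (by omega) h1
    have h4 : (k + 1) * k.factorial = k * k.factorial + k.factorial := by ring
    omega

/-- The number of children killed by one function at level `i` is at most `parF i`. -/
theorem cost_le (i : ℕ) :
    ∑ k ∈ Finset.Ico (parK i) (parK (i + 1)), (parM i / 2 ^ k.factorial + 1) ≤ parF i := by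
  rw [Finset.sum_add_distrib]
  have h1 : ∑ k ∈ Finset.Ico (parK i) (parK (i + 1)), 1 ≤ parK (i + 1) := by
    simp
  have h2 : ∑ k ∈ Finset.Ico (parK i) (parK (i + 1)), parM i / 2 ^ k.factorial
      ≤ 2 * parK (i + 1) := by
    rw [Finset.sum_Ico_eq_sum_range]
    have h3 : ∀ j ∈ Finset.range (parK (i + 1) - parK i),
        parM i / 2 ^ (parK i + j).factorial ≤ parK (i + 1) / 2 ^ j := by
      intro j _
      have h4 := fact_add_le (parK_pos i) (Nat.le_add_right (parK i) j)
      rw [Nat.add_sub_cancel_left] at h4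
      have h5 : 8 * parR i * 2 ^ j ≤ 2 ^ (parK i + j).factorial :=
        calc 8 * parR i * 2 ^ j ≤ 2 ^ (parK i).factorial * 2 ^ j :=
              Nat.mul_le_mul_right _ (R_le_fact i)
          _ = 2 ^ ((parK i).factorial + j) := by rw [pow_add]
          _ ≤ _ := Nat.pow_le_pow_right (by norm_num) h4
      have h6 : 0 < 8 * parR i := by have := parR_pos i; omega
      calc parM i / 2 ^ (parK i + j).factorial
          ≤ parM i / (8 * parR i * 2 ^ j) := Nat.div_le_div_left h5 (by positivity)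
        _ = parK (i + 1) / 2 ^ j := by
          unfold parM
          rw [Nat.mul_div_mul_left _ _ h6]
    refine (Finset.sum_le_sum h3).trans ?_
    have := Nat.geom_sum_le (b := 2) (by norm_num) (parK (i + 1)) (parK (i + 1) - parK i)
    omega
  unfold parF
  omega

end Pool.Agent.H99.OF
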